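import Mathlib

namespace Pool.Agent.MP_20a840_al.H92

open Equiv

/-- In a finite `p`-group, normalizers of proper subgroups grow. -/
theorem normalizer_grows {G : Type*} [Group G] [Finite G] {p : ℕ} [Fact p.Prime]
    {P Q : Subgroup G} (hQ : IsPGroup p Q) (hPQ : P ≤ Q) (hne : P ≠ Q) :
    ∃ g ∈ Q, g ∉ P ∧ g ∈ Subgroup.normalizer (P : Set G) := by
  have : Group.IsNilpotent Q := hQ.isNilpotent
  have hc : NormalizerCondition Q := Group.normalizerCondition_of_isNilpotent
  have hlt : P.subgroupOf Q < ⊤ := by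
    rw [lt_top_iff_ne_top]
    intro h
    exact hne (le_antisymm hPQ (Subgroup.subgroupOf_eq_top.mp h))
  obtain ⟨g, hg1, hg2⟩ := SetLike.exists_of_lt (hc _ hlt)
  refine ⟨g, g.2, fun h => hg2 (Subgroup.mem_subgroupOf.mpr h), ?_⟩
  rw [Subgroup.mem_normalizer_iff] at hg1 ⊢
  intro n
  constructor
  · intro hn
    have := (hg1 ⟨n, hPQ hn⟩).mp (Subgroup.mem_subgroupOf.mpr hn)
    exact Subgroup.mem_subgroupOf.mp this
  · intro hn
    have hnQ : n ∈ Q := by
      have h1 : (g : G)⁻¹ * ((g : G) * n * (g : G)⁻¹) * g ∈ Q :=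
        Q.mul_mem (Q.mul_mem (Q.inv_mem g.2) (hPQ hn)) g.2
      simpa [mul_assoc] using h1
    have := (hg1 ⟨n, hnQ⟩).mpr (Subgroup.mem_subgroupOf.mpr hn)
    exact Subgroup.mem_subgroupOf.mp this

/-- A maximal `p`-subgroup of a transitive permutation group of degree `p ^ k` is transitive. -/
theorem maximal_pgroup_transitive {Ω : Type*} [Finite Ω] {p k : ℕ} [hp : Fact p.Prime]
    (hcard : Nat.card Ω = p ^ k) {G P : Subgroup (Perm Ω)}
    (hG : ∀ x y : Ω, ∃ g ∈ G, g x = y)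
    (hP : Maximal (fun Q : Subgroup (Perm Ω) => Q ≤ G ∧ IsPGroup p Q) P) (x y : Ω) :
    ∃ g ∈ P, g x = y := by
  let P' : Sylow p G :=
    { toSubgroup := P.subgroupOf G
      isPGroup' := hP.prop.2.comap_subtype
      is_maximal' := by
        intro Q hQ hle
        have h1 : P ≤ Q.map G.subtype := by
          intro g hg
          exact ⟨⟨g, hP.prop.1 hg⟩, hle (Subgroup.mem_subgroupOf.mpr hg), rfl⟩
        have h2 : Q.map G.subtype ≤ P :=
          hP.le_of_ge ⟨Subgroup.map_subtype_le Q, hQ.map _⟩ h1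
        apply le_antisymm _ hle
        intro g hg
        exact Subgroup.mem_subgroupOf.mpr (h2 ⟨g, hg, rfl⟩) }
  have : MulAction.IsPretransitive G Ω := ⟨fun a b => by
    obtain ⟨g, hg, h⟩ := hG a b
    exact ⟨⟨g, hg⟩, h⟩⟩
  have hidx : (MulAction.stabilizer G x).index = p ^ k := by
    rw [MulAction.index_stabilizer_of_transitive, hcard]
  have h1 : p ^ k ∣ ((MulAction.stabilizer G x) ⊓ (P' : Subgroup G)).index :=
    hidx ▸ Subgroup.index_dvd_of_le inf_le_left
  have h2 : ((MulAction.stabilizer G x) ⊓ (P' : Subgroup G)).index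
      = (MulAction.stabilizer G x).relIndex P' * (P' : Subgroup G).index := by
    rw [← Subgroup.inf_relIndex_right, Subgroup.relIndex_mul_index inf_le_right]
  have h3 : p ^ k ∣ (MulAction.stabilizer G x).relIndex P' := by
    rw [h2] at h1
    exact (hp.1.coprime_pow_of_not_dvd P'.not_dvd_index).symm.dvd_of_dvd_mul_right h1
  have h4 : (MulAction.stabilizer G x).relIndex P'
      = (MulAction.orbit (P' : Subgroup G) x).ncard := by
    rw [← MulAction.index_stabilizer]
    rfl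
  rw [h4] at h3
  have h5 : (MulAction.orbit (P' : Subgroup G) x) = Set.univ := by
    apply Set.eq_of_subset_of_ncard_le (Set.subset_univ _)
    rw [Set.ncard_univ, hcard]
    apply Nat.le_of_dvd _ h3
    exact (Set.ncard_pos (Set.toFinite _)).mpr (MulAction.nonempty_orbit x)
  have h6 : y ∈ MulAction.orbit (P' : Subgroup G) x := h5 ▸ Set.mem_univ y
  obtain ⟨g, hg⟩ := h6
  exact ⟨g.1.1, Subgroup.mem_subgroupOf.mp g.2, hg⟩

theorem exists_maximal_pgroup {Ω : Type*} [Finite Ω] {p : ℕ} {G P : Subgroup (Perm Ω)}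
    (h1 : P ≤ G) (h2 : IsPGroup p P) :
    ∃ S, P ≤ S ∧ Maximal (fun Q : Subgroup (Perm Ω) => Q ≤ G ∧ IsPGroup p Q) S :=
  Finite.exists_le_maximal (p := fun Q : Subgroup (Perm Ω) => Q ≤ G ∧ IsPGroup p Q) ⟨h1, h2⟩

theorem isPGroup_zpowers {G : Type*} [Group G] {p : ℕ} {g : G} (h : ∃ n, g ^ p ^ n = 1) :
    IsPGroup p (Subgroup.zpowers g) := by
  obtain ⟨n, hn⟩ := h
  rintro ⟨x, k, rfl⟩
  refine ⟨n, Subtype.ext ?_⟩
  simp only [SubmonoidClass.coe_pow, OneMemClass.coe_one]
  rw [← zpow_natCast, ← zpow_mul, mul_comm, zpow_mul, zpow_natCast, hn, one_zpow]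

end Pool.Agent.MP_20a840_al.H92
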