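import Pool.Agent.MP_20a840_al.H92.Grp

namespace Pool.Agent.MP_20a840_al.H92

/-- `p`-elements that normalize a `p`-subgroup and commute modulo it generate a `p`-group
together with it. -/
theorem pgroup_of_comm_mod {G : Type*} [Group G] [Finite G] {p : ℕ} {P : Subgroup G} {X : Set G}
    (hP : IsPGroup p P) (hN : ∀ x ∈ X, x ∈ Subgroup.normalizer (P : Set G))
    (hc : ∀ x ∈ X, ∀ y ∈ X, x * y * x⁻¹ * y⁻¹ ∈ P) (hx : ∀ x ∈ X, ∃ n, x ^ p ^ n = 1) :
    IsPGroup p (P ⊔ Subgroup.closure X : Subgroup G) := by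
  set T : Subgroup G := P ⊔ Subgroup.closure X with hT
  have hTN : T ≤ Subgroup.normalizer (P : Set G) :=
    sup_le Subgroup.le_normalizer ((Subgroup.closure_le _).mpr hN)
  have hconj : ∀ g ∈ T, ∀ h ∈ P, g * h * g⁻¹ ∈ P := fun g hg h hh =>
    (Subgroup.mem_normalizer_iff.mp (hTN hg) h).mp hh
  have hXT : ∀ x ∈ X, x ∈ T := fun x hx => Subgroup.mem_sup_right (Subgroup.subset_closure hx)
  have key : ∀ x ∈ X, ∀ g ∈ T, x * g * x⁻¹ * g⁻¹ ∈ P := by
    intro x hxX
    let C : Subgroup G :=
      { carrier := {g | g ∈ T ∧ x * g * x⁻¹ * g⁻¹ ∈ P}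
        one_mem' := ⟨T.one_mem, by simp⟩
        mul_mem' := by
          rintro a b ⟨ha, ha'⟩ ⟨hb, hb'⟩
          refine ⟨T.mul_mem ha hb, ?_⟩
          have := P.mul_mem ha' (hconj a ha _ hb')
          convert this using 1
          group
        inv_mem' := by
          rintro a ⟨ha, ha'⟩
          refine ⟨T.inv_mem ha, ?_⟩
          have := hconj a⁻¹ (T.inv_mem ha) _ (P.inv_mem ha')
          convert this using 1
          group }
    have hC : T ≤ C := by
      apply sup_le
      · intro h hh
        exact ⟨Subgroup.mem_sup_left hh, P.mul_mem (hconj x (hXT x hxX) h hh) (P.inv_mem hh)⟩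
      · rw [Subgroup.closure_le]
        intro y hy
        exact ⟨hXT y hy, hc x hxX y hy⟩
    intro g hg
    exact (hC hg).2
  obtain ⟨S, hPS, hS⟩ := Finite.exists_le_maximal
    (p := fun Q : Subgroup G => Q ≤ T ∧ IsPGroup p Q) (a := P) ⟨le_sup_left, hP⟩
  have hXS : ∀ x ∈ X, x ∈ S := by
    intro x hxX
    have h1 : x ∈ Subgroup.normalizer (S : Set G) := by
      apply Subgroup.mem_normalizer_fintype
      intro n hn
      have := S.mul_mem (hPS (key x hxX n (hS.prop.1 hn))) hn
      simpa using this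
    have h2 : IsPGroup p (Subgroup.zpowers x ⊔ S : Subgroup G) :=
      IsPGroup.to_sup_of_normal_right' (isPGroup_zpowers (hx x hxX)) hS.prop.2
        ((Subgroup.zpowers_le).mpr h1)
    have h3 : Subgroup.zpowers x ⊔ S ≤ S :=
      hS.le_of_ge ⟨sup_le ((Subgroup.zpowers_le).mpr (hXT x hxX)) hS.prop.1, h2⟩ le_sup_right
    exact h3 (Subgroup.mem_sup_left (Subgroup.mem_zpowers x))
  exact hS.prop.2.to_le (sup_le hPS ((Subgroup.closure_le _).mpr hXS))

/-- The linear-algebra core of the exponent-two case. -/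
theorem core_sym {V : Type*} [AddCommGroup V] [Finite V] (h2 : ∀ v : V, v + v = 0)
    (β : V → V ≃+ V) (b : V → V → V) (hb : ∀ x w, b x w = w + β x w)
    (I3 : ∀ x y w, b x (b x w) + b y (b x w) + b (x + y) (b x w) = 0)
    (I9 : ∀ x y w, b (b y x) w = 0)
    (hconj : ∀ x y w, b (β y x) (β y w) = β y (b x w))
    {x w : V} (hw : w ∈ Function.periodicPts (b x)) (y z : V) :
    b y w + b z w + b (y + z) w = 0 := by
  have badd : ∀ x u v, b x (u + v) = b x u + b x v := by
    intro x u v
    rw [hb, hb, hb, map_add]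
    abel
  have hmap : ∀ x, ∀ w ∈ Function.periodicPts (b x), b x w ∈ Function.periodicPts (b x) := by
    rintro x w ⟨k, hk, h⟩
    exact ⟨k, hk, h.apply⟩
  have hpre : ∀ x, ∀ w ∈ Function.periodicPts (b x),
      ∃ w' ∈ Function.periodicPts (b x), b x w' = w := by
    rintro x w ⟨k, hk, h⟩
    obtain ⟨j, rfl⟩ : ∃ j, k = j + 1 := ⟨k - 1, by omega⟩
    refine ⟨(b x)^[j] w, ⟨j + 1, hk, h.apply_iterate j⟩, ?_⟩
    rw [← Function.iterate_succ_apply' (b x)]
    exact h
  have hkill : ∀ x y, ∀ w ∈ Function.periodicPts (b x), b x w + b y w + b (x + y) w = 0 := by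
    intro x y w hw
    obtain ⟨w', _, rfl⟩ := hpre x w hw
    exact I3 x y w'
  have hA : ∀ x y, Function.periodicPts (b x) ⊆ Function.periodicPts (b (β y x)) := by
    intro x y
    have e1 : ∀ w ∈ Function.periodicPts (b x), b (β y x) w = b x w := by
      intro w hw
      have h1 := hkill x (b y x) w hw
      have h3 : x + b y x = β y x := by
        rw [hb, ← add_assoc, h2, zero_add]
      rw [h3, I9] at h1
      have h4 := h2 (b x w)
      linear_combination (norm := abel) h1 + h2 (b x w) - h4 - h4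
    have e2 : ∀ k, ∀ w ∈ Function.periodicPts (b x), (b (β y x))^[k] w = (b x)^[k] w := by
      intro k
      induction k with
      | zero => intro w _; rfl
      | succ k ih =>
        intro w hw
        rw [Function.iterate_succ_apply, Function.iterate_succ_apply, e1 w hw, ih _ (hmap x w hw)]
    intro w hw
    obtain ⟨k, hk, h⟩ := id hw
    exact ⟨k, hk, (e2 k w hw).trans h⟩
  have hB : ∀ x y, β y '' Function.periodicPts (b x) = Function.periodicPts (b (β y x)) := by
    intro x y
    have e1 : ∀ k w, (b (β y x))^[k] (β y w) = β y ((b x)^[k] w) := by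
      intro k
      induction k with
      | zero => intro w; rfl
      | succ k ih =>
        intro w
        rw [Function.iterate_succ_apply, Function.iterate_succ_apply, hconj, ih]
    ext w
    constructor
    · rintro ⟨w, ⟨k, hk, h⟩, rfl⟩
      exact ⟨k, hk, (e1 k w).trans (congrArg _ h)⟩
    · rintro ⟨k, hk, h⟩
      obtain ⟨w, rfl⟩ := (β y).surjective w
      exact ⟨w, ⟨k, hk, (β y).injective ((e1 k w).symm.trans h)⟩, rfl⟩
  have hC : ∀ x y, ∀ w ∈ Function.periodicPts (b x), β y w ∈ Function.periodicPts (b x) := by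
    intro x y w hw
    have e : Function.periodicPts (b x) = Function.periodicPts (b (β y x)) := by
      apply Set.eq_of_subset_of_ncard_le (hA x y)
      rw [← hB, Set.ncard_image_of_injective _ (β y).injective]
    rw [e, ← hB]
    exact ⟨w, hw, rfl⟩
  obtain ⟨w', hw', rfl⟩ := hpre x w hw
  -- `u = b (x + y) w' = b x w' + b y w'`
  have hu : b (x + y) w' = b x w' + b y w' := by
    have := hkill x y w' hw'
    linear_combination (norm := abel) this - h2 (b x w') - h2 (b y w')
  have k1 := I3 (x + y) z w'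
  have k2 := I3 y z w'
  have hx' := hmap x w' hw'
  have hky : ∀ q, b x (b y w') + b q (b y w') + b (x + q) (b y w') = 0 := by
    intro q
    have a1 := hkill x q w' hw'
    have a2 := hkill x q _ (hC x y w' hw')
    rw [hb y w', badd, badd, badd]
    linear_combination (norm := abel) a1 + a2
  have k3 := hkill x y _ hx'
  have k4 := hkill x (y + z) _ hx'
  have k5 := hky y
  have k6 := hky (y + z)
  rw [hu, badd, badd, badd, add_assoc x y z] at k1
  linear_combination (norm := abel) k1 - k2 - k3 - k4 - k5 - k6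
    + h2 (b x (b x w')) + h2 (b y (b x w')) + h2 (b (y + z) (b x w'))
    + h2 (b x (b y w')) + h2 (b y (b y w')) + h2 (b (y + z) (b y w'))

end Pool.Agent.MP_20a840_al.H92
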