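import Mathlib

/-!
Base-point free form of an automorphic loop: the ternary operation
`t u v w = u * ((u \ v) * (u \ w))`.
-/

namespace Pool.Agent.MP_20a840_al.H92

open Equiv

/-- Ternary form of an automorphic loop. -/
class Heap (Ω : Type*) where
  t : Ω → Ω → Ω → Ω
  t112 : ∀ u w, t u u w = w
  t121 : ∀ u v, t u v u = v
  bijL : ∀ u v, Function.Bijective (t u v)
  bijR : ∀ u w, Function.Bijective (fun v => t u v w)
  sdL : ∀ a b u v w, t a b (t u v w) = t (t a b u) (t a b v) (t a b w)
  sdR : ∀ a c u v w, t a (t u v w) c = t (t a u c) (t a v c) (t a w c)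

namespace Heap

variable {Ω : Type*} [Heap Ω]

theorem surjL (u v z : Ω) : ∃ p, t u v p = z := (bijL u v).2 z
theorem surjR (u w z : Ω) : ∃ p, t u p w = z := (bijR u w).2 z
omit [Heap Ω] in
theorem func {x w w' : Ω} (h1 : x = w) (h2 : x = w') : w = w' := h1.symm.trans h2
theorem cancL {u v r r' w : Ω} (h1 : t u v r = w) (h2 : t u v r' = w) : r = r' :=
  (bijL u v).1 (h1.trans h2.symm)
theorem cancR {u v r r' w : Ω} (h1 : t u r v = w) (h2 : t u r' v = w) : r = r' :=
  (bijR u v).1 (h1.trans h2.symm)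

section schema
variable {u q x y z w X Y Z W : Ω}

theorem sdlA (B : t u q x = X) (C : t u q y = Y) (D : t u q z = Z) (E : t u q w = W)
    (G : t X Y Z = W) : t x y z = w := by
  apply (bijL u q).1
  rw [sdL, B, C, D, E, G]
theorem sdlC (A : t x y z = w) (B : t u q x = X) (D : t u q z = Z) (E : t u q w = W)
    (G : t X Y Z = W) : t u q y = Y := by
  refine cancR (?_ : t X _ Z = W) G
  rw [← E, ← A, sdL, B, D]
theorem sdlD (A : t x y z = w) (B : t u q x = X) (C : t u q y = Y) (E : t u q w = W)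
    (G : t X Y Z = W) : t u q z = Z := by
  refine cancL (?_ : t X Y _ = W) G
  rw [← E, ← A, sdL u q x, B, C]
theorem sdlE (A : t x y z = w) (B : t u q x = X) (C : t u q y = Y) (D : t u q z = Z)
    (G : t X Y Z = W) : t u q w = W := by
  rw [← A, sdL, B, C, D, G]
theorem sdlG (A : t x y z = w) (B : t u q x = X) (C : t u q y = Y) (D : t u q z = Z)
    (E : t u q w = W) : t X Y Z = W := by
  rw [← E, ← A, sdL, B, C, D]
theorem sdrA (B : t u x q = X) (C : t u y q = Y) (D : t u z q = Z) (E : t u w q = W)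
    (G : t X Y Z = W) : t x y z = w := by
  apply (bijR u q).1
  change t u (t x y z) q = t u w q
  rw [sdR, B, C, D, E, G]
theorem sdrD (A : t x y z = w) (B : t u x q = X) (C : t u y q = Y) (E : t u w q = W)
    (G : t X Y Z = W) : t u z q = Z := by
  refine cancL (?_ : t X Y _ = W) G
  rw [← E, ← A, sdR, B, C]
theorem sdrG (A : t x y z = w) (B : t u x q = X) (C : t u y q = Y) (D : t u z q = Z)
    (E : t u w q = W) : t X Y Z = W := by
  rw [← E, ← A, sdR, B, C, D]
end schema

/-- Inverses are two-sided. -/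
theorem inv_comm {a b p3 : Ω} (h0 : t a b p3 = a) : t a p3 b = a := by
  obtain ⟨p5, h2⟩ : ∃ p, t a p3 p3 = p := ⟨_, rfl⟩
  have h3 : t p3 a p5 = p3 := sdrG h0 (t112 _ _) h0 h2 (t112 _ _)
  exact sdlC h0 (t121 _ _) h2 (t121 _ _) h3

/-- Antiautomorphic inverse property. -/
theorem aaip {a b c p3 p4 p5 p6 : Ω} (h0 : t a b c = p3) (h1 : t a p3 p4 = a)
    (h2 : t a b p5 = a) (h3 : t a c p6 = a) : t a p6 p5 = p4 := by
  obtain ⟨p7, h4⟩ : ∃ p, t a p6 p5 = p := ⟨_, rfl⟩
  obtain ⟨p8, h5⟩ : ∃ p, t a c c = p := ⟨_, rfl⟩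
  obtain ⟨p9, h6⟩ : ∃ p, t a p4 p4 = p := ⟨_, rfl⟩
  obtain ⟨p10, h7⟩ : ∃ p, t a p6 p7 = p := ⟨_, rfl⟩
  obtain ⟨p11, h8⟩ : ∃ p, t p3 p a = b := surjR _ _ _
  obtain ⟨p12, h9⟩ : ∃ p, t p3 b a = p := ⟨_, rfl⟩
  have h10 : t c p8 a = c := sdlG h3 (t121 _ _) h5 h3 (t121 _ _)
  have h13 : t p3 a a = p4 := sdrA h1 (t112 _ _) (t112 _ _) h6 h6
  have h20 : t a p6 c = a := sdrD h3 (t112 _ _) h5 (t112 _ _) h10
  have h24 : t a b p4 = p12 := sdrG h8 (t112 _ _) h8 h13 h9
  have h27 : t c a p5 = p4 := sdlA h0 (t121 _ _) h2 h24 h9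
  have h33 : t c a p5 = p7 := sdlA h20 (t121 _ _) h4 h7 h7
  exact h4.trans (func h33 h27)

/-- Flexibility. -/
theorem flex (a b c : Ω) : t a b (t a c b) = t a (t a b c) b := by
  obtain ⟨p3, h0⟩ : ∃ p, t a c b = p := ⟨_, rfl⟩
  obtain ⟨p4, h1⟩ : ∃ p, t a b p3 = p := ⟨_, rfl⟩
  obtain ⟨p5, h2⟩ : ∃ p, t a b c = p := ⟨_, rfl⟩
  obtain ⟨p6, h3⟩ : ∃ p, t a p5 b = p := ⟨_, rfl⟩
  obtain ⟨p7, h4⟩ : ∃ p, t a b b = p := ⟨_, rfl⟩
  obtain ⟨p8, h5⟩ : ∃ p, t a p b = p5 := surjR _ _ _
  have h6 : t b p5 p7 = p4 := sdlG h0 (t121 _ _) h2 h4 h1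
  have h7 : t b p5 p7 = p6 := sdrG h5 (t112 _ _) h5 h4 h3
  rw [h0, h1, h2, h3]
  exact func h6 h7

/-- Left translation. -/
noncomputable def lam (u v : Ω) : Perm Ω := Equiv.ofBijective (t u v) (bijL u v)
/-- Right translation. -/
noncomputable def rho (u w : Ω) : Perm Ω := Equiv.ofBijective (fun v => t u v w) (bijR u w)

@[simp] theorem lam_apply (u v w : Ω) : lam u v w = t u v w := rfl
@[simp] theorem rho_apply (u v w : Ω) : rho u w v = t u v w := rfl
@[simp] theorem lam_inv_t (u v w : Ω) : (lam u v)⁻¹ (t u v w) = w := (lam u v).symm_apply_apply w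
@[simp] theorem rho_inv_t (u v w : Ω) : (rho u w)⁻¹ (t u v w) = v := (rho u w).symm_apply_apply v
@[simp] theorem t_lam_inv (u v w : Ω) : t u v ((lam u v)⁻¹ w) = w := (lam u v).apply_symm_apply w

/-- Automorphisms. -/
def IsAut (g : Perm Ω) : Prop := ∀ u v w, g (t u v w) = t (g u) (g v) (g w)
/-- Anti-automorphisms. -/
def IsAnti (g : Perm Ω) : Prop := ∀ u v w, g (t u v w) = t (g u) (g w) (g v)

theorem isAut_lam (a b : Ω) : IsAut (lam a b) := fun u v w => sdL a b u v w
theorem isAut_rho (a c : Ω) : IsAut (rho a c) := fun u v w => sdR a c u v w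
theorem isAut_one : IsAut (1 : Perm Ω) := fun _ _ _ => rfl
theorem IsAut.mul {g h : Perm Ω} (hg : IsAut g) (hh : IsAut h) : IsAut (g * h) := by
  intro u v w
  simp only [Perm.mul_apply]
  rw [hh, hg]
theorem IsAut.inv {g : Perm Ω} (hg : IsAut g) : IsAut g⁻¹ := by
  intro u v w
  apply g.injective
  rw [hg]
  simp
theorem IsAnti.mul {g h : Perm Ω} (hg : IsAnti g) (hh : IsAnti h) : IsAut (g * h) := by
  intro u v w
  simp only [Perm.mul_apply]
  rw [hh, hg]

/-- The automorphism group. -/
def Aut (Ω : Type*) [Heap Ω] : Subgroup (Perm Ω) where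
  carrier := {g | IsAut g}
  one_mem' := isAut_one
  mul_mem' := IsAut.mul
  inv_mem' := IsAut.inv

theorem mem_Aut {g : Perm Ω} : g ∈ Aut Ω ↔ IsAut g := Iff.rfl

/-- The inverse of `x` in the loop based at `a`. -/
noncomputable def sf (a x : Ω) : Ω := (lam a x).symm a

theorem t_sf (a x : Ω) : t a x (sf a x) = a := (lam a x).apply_symm_apply a
theorem sf_eq {a x y : Ω} (h : t a x y = a) : sf a x = y := cancL (t_sf a x) h
theorem sf_sf (a x : Ω) : sf a (sf a x) = x := sf_eq (inv_comm (t_sf a x))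

/-- Inversion at the point `a`. -/
noncomputable def s (a : Ω) : Perm Ω := ⟨sf a, sf a, sf_sf a, sf_sf a⟩

theorem t_s (a x : Ω) : t a x (s a x) = a := t_sf a x
theorem t_s' (a x : Ω) : t a (s a x) x = a := inv_comm (t_s a x)
theorem s_eq {a x y : Ω} (h : t a x y = a) : s a x = y := sf_eq h
@[simp] theorem s_s (a x : Ω) : s a (s a x) = x := sf_sf a x
@[simp] theorem s_self (a : Ω) : s a a = a := s_eq (t112 a a)
theorem s_mul_s (a : Ω) : s a * s a = 1 := by ext x; simp
theorem s_inv (a : Ω) : (s a)⁻¹ = s a := inv_eq_of_mul_eq_one_left (s_mul_s a)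

theorem IsAut.s_apply {g : Perm Ω} (hg : IsAut g) (a x : Ω) : g (s a x) = s (g a) (g x) :=
  (s_eq (by rw [← hg, t_s])).symm
theorem IsAnti.s_apply {g : Perm Ω} (hg : IsAnti g) (a x : Ω) : g (s a x) = s (g a) (g x) :=
  (s_eq (by rw [← hg, t_s'])).symm

theorem s_t_base (a x y : Ω) : s a (t a x y) = t a (s a y) (s a x) :=
  (aaip rfl (t_s _ _) (t_s _ _) (t_s _ _)).symm

theorem isAnti_s (a : Ω) : IsAnti (s a) := by
  intro u v w
  obtain ⟨v', rfl⟩ := surjL a u v
  obtain ⟨w', rfl⟩ := surjL a u w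
  have h1 : t u (t a u v') (t a u w') = t a u (t a v' w') := by rw [sdL a u a, t121]
  rw [h1, s_t_base, s_t_base, s_t_base, s_t_base, sdR a (s a u) a, t112]

theorem s_s_apply (a b x : Ω) : s a (s b x) = s (s a b) (s a x) := (isAnti_s a).s_apply b x

/-- `s x a` is the square of `x` in the loop based at `a`. -/
theorem s_eq_sq (a x : Ω) : s x a = t a x x := by
  have h := (isAut_lam a x).s_apply a (s a x)
  simp only [lam_apply, s_s, t121, t_s] at h
  exact h.symm

/-- Automorphisms of the reflection structure. -/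
def QAut (Ω : Type*) [Heap Ω] : Subgroup (Perm Ω) where
  carrier := {g | ∀ a x, g (s a x) = s (g a) (g x)}
  one_mem' := fun _ _ => rfl
  mul_mem' := by
    intro g h hg hh a x
    simp only [Perm.mul_apply]
    rw [hh, hg]
  inv_mem' := by
    intro g hg a x
    apply g.injective
    rw [hg]
    simp

theorem s_mem_QAut (a : Ω) : s a ∈ QAut Ω := fun b x => s_s_apply a b x
theorem IsAut.mem_QAut {g : Perm Ω} (hg : IsAut g) : g ∈ QAut Ω := fun b x => hg.s_apply b x
theorem QAut_conj {g : Perm Ω} (hg : g ∈ QAut Ω) (a : Ω) : g * s a * g⁻¹ = s (g a) := by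
  ext x
  simp only [Perm.mul_apply]
  rw [hg]
  simp
theorem QAut_trans (x y : Ω) : ∃ g ∈ QAut Ω, g x = y :=
  ⟨lam x y, (isAut_lam x y).mem_QAut, t121 x y⟩
theorem Aut_trans (x y : Ω) : ∃ g ∈ Aut Ω, g x = y :=
  ⟨lam x y, isAut_lam x y, t121 x y⟩

theorem IsAut.lam_conj {g : Perm Ω} (hg : IsAut g) (u v : Ω) :
    g * lam u v * g⁻¹ = lam (g u) (g v) := by
  ext x
  simp only [Perm.mul_apply, lam_apply]
  rw [hg]
  simp

/-- The middle nucleus of the loop based at `a`. -/
def Nmu (a c : Ω) : Prop := ∀ x y, t a (t a x c) y = t a x (t a c y)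

/-- Congruences. -/
structure IsCong (r : Ω → Ω → Prop) : Prop where
  equiv : Equivalence r
  left : ∀ a b x y, r (t a b x) (t a b y) ↔ r x y
  right : ∀ a c x y, r (t a x c) (t a y c) ↔ r x y

theorem IsCong.of_aut {r : Ω → Ω → Prop} (he : Equivalence r)
    (h : ∀ g : Perm Ω, IsAut g → ∀ x y, r x y → r (g x) (g y)) : IsCong r where
  equiv := he
  left a b x y := ⟨fun hr => by
    have := h _ (isAut_lam a b).inv _ _ hr
    rwa [lam_inv_t, lam_inv_t] at this, h _ (isAut_lam a b) _ _⟩
  right a c x y := ⟨fun hr => by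
    have := h _ (isAut_rho a c).inv _ _ hr
    rwa [rho_inv_t, rho_inv_t] at this, h _ (isAut_rho a c) _ _⟩

theorem IsCong.t_congr {r : Ω → Ω → Prop} (hr : IsCong r) {u u' v v' w w' : Ω}
    (hu : r u u') (hv : r v v') (hw : r w w') : r (t u v w) (t u' v' w') := by
  have h1 : ∀ z, r z (t u u' z) := fun z => by
    have := (hr.right u z u u').mpr hu
    rwa [t112] at this
  obtain ⟨v'', rfl⟩ := surjL u u' v'
  obtain ⟨w'', rfl⟩ := surjL u u' w'
  have h2 : t u' (t u u' v'') (t u u' w'') = t u u' (t u v'' w'') := by rw [sdL u u' u, t121]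
  rw [h2]
  have hv' : r v v'' := hr.equiv.trans hv (hr.equiv.symm (h1 _))
  have hw' : r w w'' := hr.equiv.trans hw (hr.equiv.symm (h1 _))
  exact hr.equiv.trans ((hr.left u v w w'').mpr hw')
    (hr.equiv.trans ((hr.right u w'' v v'').mpr hv') (h1 _))

theorem IsCong.cancL {r : Ω → Ω → Prop} (hr : IsCong r) {u u' v v' w w' : Ω}
    (hu : r u u') (hv : r v v') (h : r (t u v w) (t u' v' w')) : r w w' :=
  (hr.left u' v' w w').mp
    (hr.equiv.trans (hr.equiv.symm (hr.t_congr hu hv (hr.equiv.refl w))) h)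

theorem IsCong.cancR {r : Ω → Ω → Prop} (hr : IsCong r) {u u' v v' w w' : Ω}
    (hu : r u u') (hw : r w w') (h : r (t u v w) (t u' v' w')) : r v v' :=
  (hr.right u' w' v v').mp
    (hr.equiv.trans (hr.equiv.symm (hr.t_congr hu (hr.equiv.refl v) hw)) h)

/-- The setoid of a congruence. -/
def IsCong.setoid {r : Ω → Ω → Prop} (hr : IsCong r) : Setoid Ω := ⟨r, hr.equiv⟩

/-- The ternary operation on a quotient. -/
def IsCong.qt {r : Ω → Ω → Prop} (hr : IsCong r) (u v w : Quotient hr.setoid) :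
    Quotient hr.setoid :=
  Quotient.liftOn u (fun u' => Quotient.liftOn₂ v w
    (fun v' w' => Quotient.mk hr.setoid (t u' v' w'))
    (fun _ _ _ _ h1 h2 => Quotient.sound (hr.t_congr (hr.equiv.refl _) h1 h2)))
    (by
      intro a b hab
      induction v using Quotient.inductionOn
      induction w using Quotient.inductionOn
      exact Quotient.sound (hr.t_congr hab (hr.equiv.refl _) (hr.equiv.refl _)))

theorem IsCong.qt_mk {r : Ω → Ω → Prop} (hr : IsCong r) (u v w : Ω) :
    hr.qt (Quotient.mk _ u) (Quotient.mk _ v) (Quotient.mk _ w) = Quotient.mk _ (t u v w) := rfl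

/-- The quotient heap. -/
@[reducible] def IsCong.heap {r : Ω → Ω → Prop} (hr : IsCong r) : Heap (Quotient hr.setoid) where
  t := hr.qt
  t112 u w := by
    induction u using Quotient.inductionOn
    induction w using Quotient.inductionOn
    rw [hr.qt_mk, t112]
  t121 u w := by
    induction u using Quotient.inductionOn
    induction w using Quotient.inductionOn
    rw [hr.qt_mk, t121]
  bijL u v := by
    induction u using Quotient.inductionOn with | _ u
    induction v using Quotient.inductionOn with | _ v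
    constructor
    · intro w w' h
      induction w using Quotient.inductionOn with | _ w
      induction w' using Quotient.inductionOn with | _ w'
      rw [hr.qt_mk, hr.qt_mk] at h
      exact Quotient.sound ((hr.left u v w w').mp (Quotient.exact h))
    · intro z
      induction z using Quotient.inductionOn with | _ z
      obtain ⟨p, rfl⟩ := surjL u v z
      exact ⟨Quotient.mk _ p, rfl⟩
  bijR u v := by
    induction u using Quotient.inductionOn with | _ u
    induction v using Quotient.inductionOn with | _ v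
    constructor
    · intro w w' h
      induction w using Quotient.inductionOn with | _ w
      induction w' using Quotient.inductionOn with | _ w'
      simp only [hr.qt_mk] at h
      exact Quotient.sound ((hr.right u v w w').mp (Quotient.exact h))
    · intro z
      induction z using Quotient.inductionOn with | _ z
      obtain ⟨p, rfl⟩ := surjR u v z
      exact ⟨Quotient.mk _ p, rfl⟩
  sdL a b u v w := by
    induction a using Quotient.inductionOn
    induction b using Quotient.inductionOn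
    induction u using Quotient.inductionOn
    induction v using Quotient.inductionOn
    induction w using Quotient.inductionOn
    simp only [hr.qt_mk]
    rw [sdL]
  sdR a b u v w := by
    induction a using Quotient.inductionOn
    induction b using Quotient.inductionOn
    induction u using Quotient.inductionOn
    induction v using Quotient.inductionOn
    induction w using Quotient.inductionOn
    simp only [hr.qt_mk]
    rw [sdR]

/-- The heap of pairs related by a congruence. -/
@[reducible] def IsCong.pairs {r : Ω → Ω → Prop} (hr : IsCong r) :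
    Heap {p : Ω × Ω // r p.1 p.2} where
  t u v w := ⟨(t u.1.1 v.1.1 w.1.1, t u.1.2 v.1.2 w.1.2), hr.t_congr u.2 v.2 w.2⟩
  t112 u w := by ext <;> simp [t112]
  t121 u w := by ext <;> simp [t121]
  bijL u v := by
    constructor
    · intro w w' h
      have h1 := congrArg (fun z => z.1.1) h
      have h2 := congrArg (fun z => z.1.2) h
      ext
      · exact (bijL _ _).1 h1
      · exact (bijL _ _).1 h2
    · intro z
      obtain ⟨p, hp⟩ := surjL u.1.1 v.1.1 z.1.1
      obtain ⟨q, hq⟩ := surjL u.1.2 v.1.2 z.1.2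
      refine ⟨⟨(p, q), hr.cancL u.2 v.2 (by rw [hp, hq]; exact z.2)⟩, ?_⟩
      ext
      · exact hp
      · exact hq
  bijR u v := by
    constructor
    · intro w w' h
      have h1 := congrArg (fun z => z.1.1) h
      have h2 := congrArg (fun z => z.1.2) h
      ext
      · exact (bijR _ _).1 h1
      · exact (bijR _ _).1 h2
    · intro z
      obtain ⟨p, hp⟩ := surjR u.1.1 v.1.1 z.1.1
      obtain ⟨q, hq⟩ := surjR u.1.2 v.1.2 z.1.2
      refine ⟨⟨(p, q), hr.cancR u.2 v.2 (by rw [hp, hq]; exact z.2)⟩, ?_⟩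
      ext
      · exact hp
      · exact hq
  sdL a b u v w := by ext <;> simp only [] <;> rw [sdL]
  sdR a b u v w := by ext <;> simp only [] <;> rw [sdR]

end Heap

end Pool.Agent.MP_20a840_al.H92
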