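import Pool.Agent.MP_20a840_al.H92.Heap

namespace Pool.Agent.MP_20a840_al.H92

/-- Three brackets multiply to zero. -/
theorem bracket_cube {R : Type*} [Ring R] (h2 : ∀ x : R, x + x = 0 → x = 0) (g : Set R)
    (hadd : ∀ a ∈ g, ∀ b ∈ g, a + b ∈ g) (hbr : ∀ a ∈ g, ∀ b ∈ g, a * b - b * a ∈ g)
    (h0 : ∀ a ∈ g, ∀ b ∈ g, (a * b - b * a) * a = 0)
    {a b c d e f : R} (ha : a ∈ g) (hb : b ∈ g) (hc : c ∈ g) (hd : d ∈ g) (he : e ∈ g)
    (hf : f ∈ g) : (a * b - b * a) * (c * d - d * c) * (e * f - f * e) = 0 := by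
  have hT : ∀ a ∈ g, ∀ b ∈ g, ∀ c ∈ g, (a * b - b * a) * c = (b * c - c * b) * a := by
    intro a ha b hb c hc
    have := h0 (a + c) (hadd a ha c hc) b hb
    linear_combination (norm := noncomm_ring) this - h0 a ha b hb - h0 c hc b hb
  have hRel : ∀ a ∈ g, ∀ b ∈ g, ∀ c ∈ g, ∀ d ∈ g, (a * b - b * a) * (c * d - d * c)
      = (c * d - d * c) * a * b - a * ((c * d - d * c) * b) := by
    intro a ha b hb c hc d hd
    have := hT _ (hbr c hc d hd) a ha b hb
    linear_combination (norm := noncomm_ring) - this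
  have key : ∀ a ∈ g, ∀ b ∈ g, ∀ c ∈ g, ∀ d ∈ g,
      (a * d - d * a) * b * c = (a * c - c * a) * d * b := by
    intro a ha b hb c hc d hd
    rw [← sub_eq_zero]
    apply h2
    have r1 := hRel a ha b hb c hc d hd
    have r2 := hRel a ha c hc d hd b hb
    have t1 := hT a ha b hb c hc
    have t2 := hT b hb c hc a ha
    have t3 := hT a ha b hb d hd
    have t4 := hT b hb d hd a ha
    have t5 := hT a ha c hc d hd
    have t6 := hT c hc d hd b hb
    linear_combination (norm := noncomm_ring) r1 - r2 - a * t6 - t1 * d - t2 * d + t3 * c + t4 * c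
      - t5 * b + t4 * c
  have hmeta : ∀ a ∈ g, ∀ b ∈ g, ∀ c ∈ g, ∀ d ∈ g,
      (a * b - b * a) * (c * d - d * c) - (c * d - d * c) * (a * b - b * a) = 0 := by
    intro a ha b hb c hc d hd
    have k1 := key a ha b hb c hc d hd
    have k5 := key c hc a ha d hd b hb
    have t1 := hT a ha b hb c hc
    have t3 := hT a ha b hb d hd
    have t4 := hT b hb d hd a ha
    have t5 := hT a ha c hc d hd
    linear_combination (norm := noncomm_ring) t1 * d - k5 - t3 * c - t4 * c + k1 + t5 * b
  have hz : ∀ y ∈ g, ∀ c ∈ g, ∀ d ∈ g, ∀ e ∈ g, ∀ f ∈ g,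
      (y * (c * d - d * c) - (c * d - d * c) * y) * (e * f - f * e) = 0 := by
    intro y hy c hc d hd e he f hf
    rw [hT y hy _ (hbr c hc d hd) _ (hbr e he f hf), hmeta c hc d hd e he f hf, zero_mul]
  have z1 := hz a ha c hc d hd e he f hf
  have z2 := hz a ha c hc d hd b hb _ (hbr e he f hf)
  have r := hRel a ha b hb c hc d hd
  linear_combination (norm := noncomm_ring) r * (e * f - f * e) - z1 * b - z2

namespace Heap

open Equiv

variable {Ω : Type*} [Heap Ω]

/-- The module-theoretic core of the odd case. -/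
theorem core_odd {V : Type*} [AddCommGroup V] [Nontrivial V] (a : Ω) (φ : V → Perm Ω)
    (hadd : ∀ u v, φ (u + v) = φ u * φ v) (haut : ∀ u, IsAut (φ u))
    (hfree : ∀ u x, φ u x = x → u = 0)
    (hnorm : ∀ g : Perm Ω, IsAut g → ∀ u, ∃ v, g * φ u = φ v * g)
    (hs : ∀ x u, s x * φ u = φ (-u) * s x) (h2 : ∀ v : V, v + v = 0 → v = 0)
    (hsq : ∀ y, ∃ w, s w a = y) : ∃ c, c ≠ a ∧ Nmu a c := by
  have h0 : φ 0 = 1 := by
    have := hadd 0 0
    rw [add_zero] at this
    exact left_eq_mul.mp this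
  have happ : ∀ u v x, φ u (φ v x) = φ (u + v) x := fun u v x => by rw [hadd]; rfl
  have hinj : ∀ u v x, φ u x = φ v x → u = v := by
    intro u v x h
    have : φ (-v + u) x = x := by rw [← happ, h, happ, neg_add_cancel, h0]; rfl
    have := hfree _ _ this
    linear_combination (norm := abel) this
  have hs' : ∀ x u y, s x (φ u y) = φ (-u) (s x y) := fun x u y =>
    congrFun (congrArg DFunLike.coe (hs x u)) y
  have hcj : ∀ g : Perm Ω, IsAut g → ∃ F : AddMonoid.End V,
      (∀ u x, g (φ u x) = φ (F u) (g x)) ∧ Function.Surjective F := by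
    intro g hg
    choose F hF using hnorm g hg
    have hF' : ∀ u x, g (φ u x) = φ (F u) (g x) := fun u x =>
      congrFun (congrArg DFunLike.coe (hF u)) x
    refine ⟨AddMonoidHom.mk' F fun u v => ?_, hF', fun v => ?_⟩
    · apply hinj _ _ (g a)
      rw [← hF', ← happ, hF', hF', happ]
    · obtain ⟨u, hu⟩ := hnorm g⁻¹ hg.inv v
      refine ⟨u, hinj _ _ (g a) ?_⟩
      change φ (F u) (g a) = φ v (g a)
      rw [← hF']
      have := congrFun (congrArg DFunLike.coe hu) (g a)
      simp only [Perm.mul_apply, Perm.coe_inv, symm_apply_apply] at this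
      rw [← this]
      simp
  choose L hL hLs using fun x => hcj (lam a x) (isAut_lam a x)
  simp only [lam_apply] at hL
  have hLa : L a = 1 := by
    ext u
    apply hinj _ _ a
    have := hL a u a
    rw [t112, t112] at this
    exact this.symm
  have hsφ : ∀ v w y, s (φ v w) y = φ (v + v) (s w y) := by
    intro v w y
    have := (haut v).s_apply w (φ (-v) y)
    rw [happ v (-v), add_neg_cancel, h0, Perm.one_apply] at this
    rw [← this, hs', neg_neg, happ]
  have hL3 : ∀ w x, L (s w (s a x)) = L x + (L w - 1) + (L w - 1) := by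
    intro w x
    ext u
    have hk : IsAut (φ (-u) * rho a (φ u a)) := (haut _).mul (isAut_rho _ _)
    have hk' : ∀ z, (φ (-u) * rho a (φ u a)) z = φ (-u + L z u) z := by
      intro z
      rw [Perm.mul_apply, rho_apply, hL, t121, happ]
    have e := hk.s_apply w (s a x)
    rw [hk.s_apply a x, hk', hk', hk', hk', hLa, hsφ, hsφ, hs', hs', hs', happ, happ] at e
    have := hinj _ _ _ e
    change L (s w (s a x)) u = L x u + (L w u - u) + (L w u - u)
    change -u + _ = -u + L w u + (-u + L w u) + - (-u + u + (-u + u)) + _ at this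
    linear_combination (norm := abel) this
  have hL3' : ∀ w x, L (s w (s a x)) = L x + L (s w a) - 1 := by
    intro w x
    have := hL3 w a
    rw [s_self, hLa] at this
    rw [hL3, this]
    abel
  have hM : ∀ x u y, t a (φ u y) x = φ (L (s a x) u) (t a y x) := by
    intro x u y
    apply (s a).injective
    rw [s_t_base, hs', hL, hs', s_t_base, map_neg]
  have hneg : ∀ x, L (s a x) = 1 - (L x - 1) := by
    intro x
    obtain ⟨w, rfl⟩ := hsq x
    have := hL3' w (s a (s w a))
    rw [s_s, s_s, hLa] at this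
    linear_combination (norm := abel) - this
  have hc : ∀ w u z, s w (s a (φ u z)) = φ u (s w (s a z)) := by
    intro w u z
    rw [hs', hs', neg_neg]
  have hcA : ∀ w p q r, s w (s a (t p q r)) = t (s w (s a p)) (s w (s a q)) (s w (s a r)) :=
    fun w => (isAnti_s w).mul (isAnti_s a)
  have E1 : ∀ x y, L y * L x = (L (t a y x) - L y + 1) * L y := by
    intro x y
    obtain ⟨w, rfl⟩ := hsq y
    have hz : s w (s a (s a (s w (t a (s w a) x)))) = t a (s w a) x := by simp
    have e := hL3' w (s a (s w (t a (s w a) x)))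
    generalize s a (s w (t a (s w a) x)) = z at hz e
    rw [hz] at e
    have e' : L (t a (s w a) x) - L (s w a) + 1 = L z := by rw [e]; abel
    rw [e']
    ext u
    apply hinj _ _ (t a (s w a) x)
    have p1 := sdL a (s w a) a x (φ u a)
    have p2 := hcA w a z (φ (L (s w a) u) a)
    rw [hc, s_self, hz, hL, t121, hc, hz] at p2
    rw [hL, t121, hL, hL, t121, ← p2] at p1
    exact p1
  have E2 : ∀ x y, L (s a x) * L y = (L (t a y x) - L x + 1) * L (s a x) := by
    intro x y
    obtain ⟨w, rfl⟩ := hsq x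
    have hz : s w (s a (s a (s w (t a y (s w a))))) = t a y (s w a) := by simp
    have e := hL3' w (s a (s w (t a y (s w a))))
    generalize s a (s w (t a y (s w a))) = z at hz e
    rw [hz] at e
    have e' : L (t a y (s w a)) - L (s w a) + 1 = L z := by rw [e]; abel
    rw [e']
    ext u
    apply hinj _ _ (t a y (s w a))
    have p1 := sdR a (s w a) a y (φ u a)
    have p2 := hcA w a z (φ (L (s a (s w a)) u) a)
    rw [hc, s_self, hz, hL, t121, hc, hz] at p2
    rw [hL, t121, hM, hM, t112, ← p2] at p1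
    exact p1
  have hR2 : ∀ f : AddMonoid.End V, f + f = 0 → f = 0 := by
    intro f hf
    ext u
    exact h2 _ (congrFun (congrArg DFunLike.coe hf) u)
  have hcan : ∀ y (f : AddMonoid.End V), f * L y = 0 → f = 0 := by
    intro y f hf
    ext u
    obtain ⟨v, rfl⟩ := hLs y u
    exact congrFun (congrArg DFunLike.coe hf) v
  obtain ⟨l, hl⟩ : ∃ l : Ω → AddMonoid.End V, ∀ x, L x = 1 + l x :=
    ⟨fun x => L x - 1, fun x => (add_sub_cancel _ _).symm⟩
  have hlneg : ∀ x, l (s a x) = - l x := by
    intro x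
    have := hneg x
    rw [hl, hl] at this
    linear_combination (norm := abel) this
  have hmain : ∀ x y, l (t a y x) = l x + l y + (l y * l x - l x * l y) ∧
      (l y * l x - l x * l y) * l y = 0 := by
    intro x y
    have a1 := E1 x y
    have a2 := E2 x y
    have b1 := E1 (s a x) y
    have b2 := E2 (s a x) y
    have c1 := hcan y (l (t a y x) - l x - l y + (l (t a y (s a x)) + l x - l y))
    simp only [hl, hlneg, neg_neg] at a1 a2 b1 b2 c1
    have c2 := c1 (by linear_combination (norm := noncomm_ring) - a1 - b1)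
    generalize l (t a y x) = M at *
    generalize l (t a y (s a x)) = M' at *
    generalize l x = X at *
    generalize l y = Y at *
    have d1 : (M - X - Y) * (X + Y) = 0 := by linear_combination (norm := noncomm_ring) a2 - a1
    have d2 : (M - X - Y) * (X - Y) = 0 := by
      linear_combination (norm := noncomm_ring) b2 - b1 + c2 * (X - Y)
    have d3 : (M - X - Y) * Y = 0 := hR2 _ (by linear_combination (norm := noncomm_ring) d1 - d2)
    have d4 : M = X + Y + (Y * X - X * Y) := by linear_combination (norm := noncomm_ring) - a1 - d3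
    refine ⟨d4, ?_⟩
    rw [d4] at d3
    linear_combination (norm := noncomm_ring) d3
  have hgadd : ∀ A ∈ Set.range l, ∀ B ∈ Set.range l, A + B ∈ Set.range l := by
    rintro _ ⟨x, rfl⟩ _ ⟨y, rfl⟩
    obtain ⟨w, rfl⟩ := hsq y
    refine ⟨s w (s a x), ?_⟩
    have := hL3' w x
    simp only [hl] at this
    linear_combination (norm := abel) this
  have hgneg : ∀ A ∈ Set.range l, -A ∈ Set.range l := by
    rintro _ ⟨x, rfl⟩
    exact ⟨_, hlneg x⟩
  have hgbr : ∀ A ∈ Set.range l, ∀ B ∈ Set.range l, A * B - B * A ∈ Set.range l := by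
    rintro _ ⟨y, rfl⟩ _ ⟨x, rfl⟩
    have := hgadd _ (hgadd _ ⟨t a y x, rfl⟩ _ (hgneg _ ⟨x, rfl⟩)) _ (hgneg _ ⟨y, rfl⟩)
    rw [(hmain x y).1] at this
    convert this using 1
    abel
  have hg0 : ∀ A ∈ Set.range l, ∀ B ∈ Set.range l, (A * B - B * A) * A = 0 := by
    rintro _ ⟨y, rfl⟩ _ ⟨x, rfl⟩
    exact (hmain x y).2
  have hu : ∃ u : V, u ≠ 0 ∧ ∀ x y, (l x * l y - l y * l x) u = 0 := by
    by_contra hcon
    push Not at hcon
    obtain ⟨u0, hu0⟩ := exists_ne (0 : V)
    obtain ⟨x1, y1, h1⟩ := hcon u0 hu0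
    obtain ⟨x2, y2, h2'⟩ := hcon _ h1
    obtain ⟨x3, y3, h3⟩ := hcon _ h2'
    have := bracket_cube hR2 (Set.range l) hgadd hgbr hg0 ⟨x3, rfl⟩ ⟨y3, rfl⟩ ⟨x2, rfl⟩ ⟨y2, rfl⟩
      ⟨x1, rfl⟩ ⟨y1, rfl⟩
    exact h3 (congrFun (congrArg DFunLike.coe this) u0)
  obtain ⟨u, hu0, hu⟩ := hu
  refine ⟨φ u a, fun e => hu0 (hfree _ _ e), fun x y => ?_⟩
  rw [hL, t121, hM, hM, t112, hL]
  congr 2
  have e : L (s a y) * L x = L x * L (s a y) + (l x * l y - l y * l x) := by
    rw [hl, hl, hlneg]
    noncomm_ring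
  have := congrFun (congrArg DFunLike.coe e) u
  change L (s a y) (L x u) = L x (L (s a y) u) + (l x * l y - l y * l x) u at this
  rw [this, hu, add_zero]

end Heap

end Pool.Agent.MP_20a840_al.H92
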