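import Pool.Agent.MP_20a840_al.H92.Two
import Pool.Agent.MP_20a840_al.H92.OddCore

namespace Pool.Agent.MP_20a840_al.H92

namespace Heap

open Equiv

universe u

variable {Ω : Type u} [Heap Ω]

theorem s_fix_symm {u v : Ω} (h : s u v = v) : s v u = u := by
  have := t_s u v
  rwa [h, ← s_eq_sq] at this

theorem clique_comm {u v w : Ω} (h1 : s u v = v) (h2 : s u w = w) (h3 : s v w = w) :
    t u v w = t u w v := by
  obtain ⟨z, hz⟩ := surjL u v w
  have e1 := (isAut_lam u v).s_apply u z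
  rw [lam_apply, lam_apply, lam_apply, t121, hz, h3] at e1
  have e2 : s u z = z := cancL e1 hz
  have e3 := s_t_base u v z
  rw [hz, h2, e2, h1] at e3
  have e4 := flex u v z
  rwa [← e3, hz] at e4

/-- In odd order there are no involutions. -/
theorem s_fix_unique [Finite Ω] (hodd : ¬ 2 ∣ Nat.card Ω) {a y : Ω} (h : s a y = y) : y = a := by
  classical
  obtain ⟨C, hC0, hC⟩ := Finite.exists_le_maximal
    (p := fun C : Set Ω => ∀ u ∈ C, ∀ v ∈ C, s u v = v) (a := {a, y}) (by
      rintro u (rfl | rfl) v (rfl | rfl)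
      · exact s_self _
      · exact h
      · exact s_fix_symm h
      · exact s_self _)
  have ha : a ∈ C := hC0 (Or.inl rfl)
  have hy : y ∈ C := hC0 (Or.inr rfl)
  have hmax : ∀ z, (∀ u ∈ C, s u z = z) → z ∈ C := by
    intro z hz
    have : insert z C ≤ C := hC.le_of_ge (by
      rintro u (rfl | hu) v (rfl | hv)
      · exact s_self _
      · exact s_fix_symm (hz v hv)
      · exact hz u hu
      · exact hC.prop u hu v hv) (Set.subset_insert _ _)
    exact this (Set.mem_insert _ _)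
  let H : Subgroup (Perm Ω) := Subgroup.closure (s '' C)
  have hc1 : ∀ g ∈ H, ∀ u ∈ C, Commute g (s u) := by
    intro g hg u hu
    induction hg using Subgroup.closure_induction with
    | mem f hf =>
      obtain ⟨v, hv, rfl⟩ := hf
      have := QAut_conj (s_mem_QAut v) u
      rw [hC.prop v hv u hu] at this
      exact mul_inv_eq_iff_eq_mul.mp this
    | one => exact Commute.one_left _
    | mul _ _ _ _ h1 h2 => exact h1.mul_left h2
    | inv _ _ h1 => exact h1.inv_left
  have hc2 : ∀ g ∈ H, ∀ f ∈ H, Commute g f := by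
    intro g hg f hf
    induction hf using Subgroup.closure_induction with
    | mem f hf =>
      obtain ⟨v, hv, rfl⟩ := hf
      exact hc1 g hg v hv
    | one => exact Commute.one_right _
    | mul _ _ _ _ h1 h2 => exact h1.mul_right h2
    | inv _ _ h1 => exact h1.inv_right
  have hsq : ∀ g ∈ H, g ^ 2 = 1 := by
    intro g hg
    induction hg using Subgroup.closure_induction with
    | mem f hf =>
      obtain ⟨v, _, rfl⟩ := hf
      rw [pow_two, s_mul_s]
    | one => exact one_pow _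
    | mul f f' hf hf' h1 h2 => rw [(hc2 f hf f' hf').mul_pow, h1, h2, one_mul]
    | inv _ _ h1 => rw [inv_pow, h1, inv_one]
  have hH : IsPGroup 2 H := fun g => ⟨1, Subtype.ext (by simpa using hsq g g.2)⟩
  have hfix : MulAction.fixedPoints H Ω = C := by
    ext z
    constructor
    · intro hz
      exact hmax z fun u hu => hz ⟨s u, Subgroup.subset_closure ⟨u, hu, rfl⟩⟩
    · rintro hz ⟨g, hg⟩
      change g z = z
      induction hg using Subgroup.closure_induction with
      | mem f hf =>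
        obtain ⟨v, hv, rfl⟩ := hf
        exact hC.prop v hv z hz
      | one => rfl
      | mul f f' _ _ h1 h2 => rw [Perm.mul_apply, h2, h1]
      | inv f _ h1 => exact Perm.inv_eq_iff_eq.mpr h1.symm
  have hCodd : ¬ 2 ∣ Nat.card C := by
    intro hd
    have := hH.card_modEq_card_fixedPoints Ω
    rw [hfix] at this
    exact hodd ((Nat.modEq_zero_iff_dvd).mp (this.trans hd.modEq_zero_nat))
  have hcomm : ∀ v ∈ C, ∀ w ∈ C, t a v w = t a w v := fun v hv w hw =>
    clique_comm (hC.prop a ha v hv) (hC.prop a ha w hw) (hC.prop v hv w hw)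
  have hclosed : ∀ v ∈ C, ∀ w ∈ C, t a v w ∈ C := by
    intro v hv w hw
    apply hmax
    intro u hu
    rw [isAnti_s u, hC.prop u hu a ha, hC.prop u hu v hv, hC.prop u hu w hw, hcomm v hv w hw]
  have hex : ∀ w : C, ∃ w' : C, t a w.1 w'.1 = y := by
    intro w
    let f : C → C := fun z => ⟨t a w.1 z.1, hclosed _ w.2 _ z.2⟩
    have hf : Function.Injective f := fun z z' e =>
      Subtype.ext ((bijL a w.1).1 (congrArg Subtype.val e))
    obtain ⟨z, hz⟩ := Finite.injective_iff_surjective.mp hf ⟨y, hy⟩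
    exact ⟨z, congrArg Subtype.val hz⟩
  choose θ hθ using hex
  have hinv : Function.Involutive θ := fun w =>
    Subtype.ext (cancL (hθ (θ w)) ((hcomm _ (θ w).2 _ w.2).trans (hθ w)))
  have := Fintype.ofFinite C
  obtain ⟨w, hw⟩ := Perm.exists_fixed_point_of_prime (p := 2) (n := 1)
    (by rwa [← Nat.card_eq_fintype_card]) (σ := hinv.toPerm θ)
    (by rw [pow_one, pow_two]; ext w; exact congrArg Subtype.val (hinv w))
  have e := hθ w
  rw [show θ w = w from hw, ← s_eq_sq, hC.prop w w.2 a ha] at e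
  exact e.symm

theorem refl_inv (x y : Ω) : s x * (s x * s y)⁻¹ = (s x * s y) * s x := by
  rw [mul_inv_rev, s_inv, s_inv, mul_assoc]

theorem refl_pow (x y : Ω) (j : ℕ) :
    (s x * s y) ^ (2 * j) * s x = s (((s x * s y) ^ j) x) := by
  have hg : s x * s y ∈ QAut Ω := (QAut Ω).mul_mem (s_mem_QAut x) (s_mem_QAut y)
  have h1 : s x * ((s x * s y) ^ j)⁻¹ = (s x * s y) ^ j * s x := by
    rw [← inv_pow]
    exact (SemiconjBy.pow_right (refl_inv x y) j)
  rw [← QAut_conj ((QAut Ω).pow_mem hg j), mul_assoc, h1, ← mul_assoc, ← pow_add, two_mul]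

theorem refl_exists (x y : Ω) (n : ℕ) : ∃ w, (s x * s y) ^ n * s x = s w := by
  have hg : s x * s y ∈ QAut Ω := (QAut Ω).mul_mem (s_mem_QAut x) (s_mem_QAut y)
  obtain ⟨j, rfl | rfl⟩ := Nat.even_or_odd' n
  · exact ⟨_, refl_pow x y j⟩
  · have h1 : s x * ((s x * s y) ^ j)⁻¹ = (s x * s y) ^ j * s x := by
      rw [← inv_pow]
      exact (SemiconjBy.pow_right (refl_inv x y) j)
    have h2 := QAut_conj (s_mem_QAut x) y
    rw [s_inv] at h2
    refine ⟨((s x * s y) ^ j) (s x y), ?_⟩
    rw [← QAut_conj ((QAut Ω).pow_mem hg j), ← h2, mul_assoc, mul_assoc (s x * s y), h1]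
    group

section odd

variable [Finite Ω] (hodd : ¬ 2 ∣ Nat.card Ω)
include hodd

theorem s_inj {x y : Ω} (h : s x = s y) : x = y :=
  s_fix_unique hodd (by rw [← h, s_self])

theorem s_surj (x y : Ω) : ∃ w, s w x = y := by
  have h1 : ∀ j, (s x * s y) ^ (2 * j) = 1 → (s x * s y) ^ j = 1 := by
    intro j hj
    obtain ⟨w, hw⟩ := refl_exists x y j
    have e := refl_pow x y j
    rw [hj, one_mul] at e
    have e2 : s w x = x := by
      rw [← hw, Perm.mul_apply, s_self]
      exact (s_inj hodd e).symm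
    rw [← s_fix_unique hodd e2] at hw
    exact mul_eq_right.mp hw
  obtain ⟨j, hj | hj⟩ := Nat.even_or_odd' (orderOf (s x * s y))
  · exfalso
    have hpos := orderOf_pos (s x * s y)
    have := Nat.le_of_dvd (by omega) (orderOf_dvd_of_pow_eq_one (h1 j (hj ▸ pow_orderOf_eq_one _)))
    omega
  · obtain ⟨w, hw⟩ := refl_exists x y j
    refine ⟨w, ?_⟩
    rw [← hw, Perm.mul_apply, s_self]
    apply s_inj hodd
    rw [← refl_pow]
    have e := pow_orderOf_eq_one (s x * s y)
    rw [hj, pow_succ, ← mul_assoc] at e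
    rw [eq_inv_of_mul_eq_one_left e, s_inv]

theorem s_apply_inj {w w' x : Ω} (h : s w x = s w' x) : w = w' :=
  (Finite.injective_iff_surjective (f := fun w => s w x)).mpr (s_surj hodd x) h

theorem ss_pelt {p k : ℕ} [hp : Fact p.Prime] (hk : Nat.card Ω = p ^ k) (w a : Ω) :
    ∃ n, (s w * s a) ^ p ^ n = 1 := by
  classical
  have := Fintype.ofFinite Ω
  have hsemi : ∀ n z, ((s w * s a) ^ n) z = z → (s w * s a) ^ n = 1 := by
    intro n z hz
    cases n with
    | zero => rfl
    | succ n =>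
      obtain ⟨w', hw'⟩ := refl_exists w a n
      rw [pow_succ, ← mul_assoc, hw'] at hz ⊢
      have : s w' (s a z) = s a (s a z) := by rw [s_s]; exact hz
      rw [s_apply_inj hodd this, s_mul_s]
  have hpos := orderOf_pos (s w * s a)
  refine ⟨_, (Nat.eq_prime_pow_of_unique_prime_dvd (p := p) hpos.ne' ?_) ▸ pow_orderOf_eq_one _⟩
  intro q hq hdvd
  by_contra hne
  have : Fact q.Prime := ⟨hq⟩
  obtain ⟨m, hm⟩ := hdvd
  obtain ⟨z, hz⟩ := Perm.exists_fixed_point_of_prime (p := q) (n := 1) (σ := (s w * s a) ^ m)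
    (by
      rw [← Nat.card_eq_fintype_card, hk]
      intro hd
      exact hne ((Nat.prime_dvd_prime_iff_eq hq hp.1).mp (hq.dvd_of_dvd_pow hd)))
    (by rw [pow_one, ← pow_mul, mul_comm, ← hm, pow_orderOf_eq_one])
  have h1 := orderOf_dvd_of_pow_eq_one (hsemi m z hz)
  have hm0 : 0 < m := Nat.pos_of_ne_zero (by rintro rfl; omega)
  have h2 := Nat.le_of_dvd hm0 h1
  have h3 := hq.two_le
  nlinarith

theorem K_pgroup {p k : ℕ} [hp : Fact p.Prime] (hk : Nat.card Ω = p ^ k) (a : Ω) :
    IsPGroup p (K Ω) := by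
  obtain ⟨S, -, hS⟩ := Finite.exists_le_maximal
    (p := fun Q : Subgroup (Perm Ω) =>
      Q ≤ QAut Ω ∧ IsPGroup p Q ∧ ∀ g ∈ Q, s a * g * s a ∈ Q) (a := ⊥)
    ⟨bot_le, IsPGroup.of_bot, fun g hg => by
      rw [Subgroup.mem_bot] at hg ⊢
      rw [hg, mul_one, s_mul_s]⟩
  have hext : ∀ x ∈ QAut Ω, IsPGroup p (Subgroup.zpowers x ⊔ S : Subgroup (Perm Ω)) →
      s a * x * s a ∈ Subgroup.zpowers x ⊔ S → x ∈ S := by
    intro x hx h1 h2
    have h3 : Subgroup.zpowers x ⊔ S ≤ S := by
      refine hS.le_of_ge ⟨sup_le (Subgroup.zpowers_le.mpr hx) hS.prop.1, h1, ?_⟩ le_sup_right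
      have : Subgroup.zpowers x ⊔ S ≤
          (Subgroup.zpowers x ⊔ S).comap (MulAut.conj (s a)).toMonoidHom := by
        apply sup_le
        · rw [Subgroup.zpowers_le, Subgroup.mem_comap]
          change s a * x * (s a)⁻¹ ∈ _
          rwa [s_inv]
        · intro g hg
          rw [Subgroup.mem_comap]
          change s a * g * (s a)⁻¹ ∈ _
          rw [s_inv]
          exact Subgroup.mem_sup_right (hS.prop.2.2 g hg)
      intro g hg
      have h4 := this hg
      rw [Subgroup.mem_comap] at h4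
      change s a * g * (s a)⁻¹ ∈ _ at h4
      rwa [s_inv] at h4
    exact h3 (Subgroup.mem_sup_left (Subgroup.mem_zpowers x))
  obtain ⟨S', hSS', hS'⟩ := exists_maximal_pgroup hS.prop.1 hS.prop.2.1
  have heq : S = S' := by
    by_contra hne
    obtain ⟨g, hgS', hgS, hgN⟩ := normalizer_grows hS'.prop.2 hSS' hne
    have hgQ : g ∈ QAut Ω := hS'.prop.1 hgS'
    have hJN : s a ∈ Subgroup.normalizer (S : Set (Perm Ω)) :=
      Subgroup.mem_normalizer_fintype fun n hn => by
        rw [s_inv]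
        exact hS.prop.2.2 n hn
    have hc : s (g a) * s a ∈ S := by
      apply hext _ ((QAut Ω).mul_mem (s_mem_QAut _) (s_mem_QAut _))
      · apply IsPGroup.to_sup_of_normal_right' (isPGroup_zpowers (ss_pelt hodd hk _ _)) hS.prop.2.1
        rw [Subgroup.zpowers_le, ← QAut_conj hgQ]
        exact Subgroup.mul_mem _ (Subgroup.mul_mem _ (Subgroup.mul_mem _ hgN hJN)
          (Subgroup.inv_mem _ hgN)) hJN
      · apply Subgroup.mem_sup_left
        have : s a * (s (g a) * s a) * s a = (s (g a) * s a)⁻¹ := by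
          rw [mul_inv_rev, s_inv, s_inv, mul_assoc, mul_assoc, s_mul_s, mul_one]
        rw [this]
        exact Subgroup.inv_mem _ (Subgroup.mem_zpowers _)
    apply hgS
    apply hext g hgQ (hS'.prop.2.to_le (sup_le (Subgroup.zpowers_le.mpr hgS') hSS'))
    have : s a * g * s a = (s (g a) * s a)⁻¹ * g := by
      rw [← QAut_conj hgQ]
      simp only [mul_inv_rev, s_inv]
      group
    rw [this]
    exact Subgroup.mul_mem _ (Subgroup.mem_sup_right (S.inv_mem hc))
      (Subgroup.mem_sup_left (Subgroup.mem_zpowers _))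
  have hT : ∀ w, s w * s a ∈ S := by
    intro w
    obtain ⟨g, hg, rfl⟩ := maximal_pgroup_transitive hk QAut_trans hS' a w
    rw [← heq] at hg
    rw [← QAut_conj (hS.prop.1 hg), mul_assoc, mul_assoc, ← mul_assoc (s a)]
    exact S.mul_mem hg (hS.prop.2.2 _ (S.inv_mem hg))
  apply hS.prop.2.1.to_le
  rw [K, Subgroup.closure_le]
  rintro _ ⟨x, y, rfl⟩
  have := S.mul_mem (hT x) (S.inv_mem (hT y))
  rwa [mul_inv_rev, s_inv, s_inv, mul_assoc, ← mul_assoc (s a), s_mul_s, one_mul] at this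

/-- The case of odd prime power order. -/
theorem exists_Nmu_odd {p k : ℕ} [hp : Fact p.Prime] (hk : Nat.card Ω = p ^ k) {a b : Ω}
    (hab : b ≠ a) : ∃ c, c ≠ a ∧ Nmu a c := by
  have hK := K_pgroup hodd hk a
  let U : Subgroup (Perm Ω) := K Ω ⊓ Subgroup.centralizer (K Ω : Set (Perm Ω))
  have hUc : ∀ u ∈ U, ∀ f ∈ K Ω, f * u = u * f := fun u hu f hf =>
    Subgroup.mem_centralizer_iff.mp hu.2 f hf
  have hfree : ∀ u ∈ U, ∀ x, u x = x → u = 1 := by
    intro u hu x hx
    ext y
    obtain ⟨w, rfl⟩ := s_surj hodd x y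
    have := congrFun (congrArg DFunLike.coe (hUc u hu _ (ss_mem_K w x))) x
    simp only [Perm.coe_mul, Function.comp_apply, hx, s_self] at this
    exact this.symm
  have hnorm : ∀ g ∈ QAut Ω, ∀ u ∈ U, g * u * g⁻¹ ∈ U := by
    intro g hg u hu
    refine ⟨(K_conj hg hg (fun _ => rfl) hu.1).1, Subgroup.mem_centralizer_iff.mpr fun f hf => ?_⟩
    have h1 := (K_conj ((QAut Ω).inv_mem hg) ((QAut Ω).inv_mem hg) (fun _ => rfl) hf).1
    have h2 := hUc u hu _ h1
    calc f * (g * u * g⁻¹) = g * (g⁻¹ * f * g⁻¹⁻¹ * u) * g⁻¹ := by group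
      _ = g * u * g⁻¹ * f := by rw [h2]; group
  have hsU : ∀ x, ∀ u ∈ U, s x * u = u⁻¹ * s x := by
    intro x u hu
    have hv := hnorm _ (s_mem_QAut x) u hu
    rw [s_inv] at hv
    have h1 : u * (s x * u * s x) = 1 := by
      apply hfree _ (U.mul_mem hu hv) x
      apply s_fix_unique hodd
      have h2 := congrFun (congrArg DFunLike.coe (hUc u hu _ hv.1)) x
      simp only [Perm.coe_mul, Function.comp_apply, s_self] at h2 ⊢
      exact h2
    rw [← eq_inv_of_mul_eq_one_right h1, mul_assoc, s_mul_s, mul_one]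
  have hcomm : IsMulCommutative U := ⟨⟨fun u v => Subtype.ext (hUc v v.2 u u.2.1)⟩⟩
  have hnt : Nontrivial U := by
    have : Nontrivial (K Ω) := ⟨⟨⟨s b * s a, ss_mem_K b a⟩, 1, fun e => by
      have e' : s b * s a = 1 := congrArg Subtype.val e
      exact hab (s_inj hodd (by rw [eq_inv_of_mul_eq_one_left e', s_inv]))⟩⟩
    have := hK.center_nontrivial
    obtain ⟨u, hu⟩ := exists_ne (1 : Subgroup.center (K Ω))
    refine ⟨⟨⟨u.1.1, u.1.2, Subgroup.mem_centralizer_iff.mpr fun f hf => ?_⟩, 1, fun e => hu ?_⟩⟩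
    · exact congrArg Subtype.val (Subgroup.mem_center_iff.mp u.2 ⟨f, hf⟩)
    · have e' : u.1.1 = 1 := congrArg Subtype.val e
      exact Subtype.ext (Subtype.ext e')
  let _ : CommGroup U := { (inferInstance : Group U) with mul_comm := hcomm.1.1 }
  refine core_odd (V := Additive U) a (fun u => (Additive.toMul u).1) (fun _ _ => rfl)
    (fun u => K_le_Aut (Additive.toMul u).2.1)
    (fun u x h => Subtype.ext (hfree _ (Additive.toMul u).2 x h)) (fun g hg u => ?_)
    (fun x u => hsU x _ (Additive.toMul u).2) (fun v hv => ?_) (s_surj hodd a)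
  · exact ⟨Additive.ofMul ⟨_, hnorm g hg.mem_QAut _ (Additive.toMul u).2⟩, by simp⟩
  · have h1 : (Additive.toMul v).1 ^ 2 = 1 := by
      rw [pow_two]
      exact congrArg Subtype.val hv
    obtain ⟨n, hn⟩ := hK ⟨_, (Additive.toMul v).2.1⟩
    have h2 : (Additive.toMul v).1 ^ p ^ n = 1 := congrArg Subtype.val hn
    have hp2 : p ≠ 2 := by
      rintro rfl
      apply hodd
      rw [hk]
      apply dvd_pow_self
      rintro rfl
      have : Subsingleton Ω := (Nat.card_eq_one_iff_unique.mp hk).1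
      exact hab (Subsingleton.elim _ _)
    have hco : Nat.Coprime 2 (p ^ n) :=
      ((Nat.coprime_primes Nat.prime_two hp.1).mpr hp2.symm).pow_right n
    have h3 := Nat.eq_one_of_dvd_coprimes hco (orderOf_dvd_of_pow_eq_one h1)
      (orderOf_dvd_of_pow_eq_one h2)
    exact Subtype.ext (orderOf_eq_one_iff.mp h3)

end odd

/-- Every heap of prime power order `> 1` has a nontrivial middle nucleus. -/
theorem exists_Nmu {p k : ℕ} (hp : p.Prime) (hk0 : 1 ≤ k) (hk : Nat.card Ω = p ^ k) (a : Ω) :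
    ∃ c, c ≠ a ∧ Nmu a c := by
  have : Fact p.Prime := ⟨hp⟩
  have : Finite Ω := Nat.finite_of_card_ne_zero (hk ▸ pow_ne_zero _ hp.ne_zero)
  have : Nontrivial Ω := Finite.one_lt_card_iff_nontrivial.mp
    (hk ▸ one_lt_pow₀ hp.one_lt (by omega))
  obtain ⟨b, hb⟩ := exists_ne a
  by_cases h2 : p = 2
  · subst h2
    exact exists_Nmu_two hk hb
  · refine exists_Nmu_odd ?_ hk hb
    rw [hk]
    intro hd
    exact h2 ((Nat.prime_dvd_prime_iff_eq Nat.prime_two hp).mp
      (Nat.prime_two.dvd_of_dvd_pow hd)).symm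

end Heap

end Pool.Agent.MP_20a840_al.H92
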