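import Pool.Agent.MP_20a840_al.H92.SymId
import Pool.Agent.MP_20a840_al.H92.Grp2

namespace Pool.Agent.MP_20a840_al.H92

namespace Heap

open Equiv

universe u

/-- A chosen base point. -/
class Pt (Ω : Type u) where
  o : Ω

open Pt

variable {Ω : Type u} [Heap Ω] [IsSym Ω]

/-- The derived addition: `t x y (pl a x y) = a`. -/
noncomputable def pl (a x y : Ω) : Ω := (lam x y)⁻¹ a

omit [IsSym Ω] in
theorem t_pl (a x y : Ω) : t x y (pl a x y) = a := t_lam_inv x y a
omit [IsSym Ω] in
theorem pl_eq {a x y z : Ω} (h : t x y z = a) : pl a x y = z := cancL (t_pl a x y) h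

theorem Nmu_iff (a c : Ω) : Nmu a c ↔ ∀ x y, t a x (t a y c) = t a y (t a x c) := by
  unfold Nmu
  constructor
  · intro h x y
    have := h x y
    rw [comm23 a c y, comm23 a (t a x c) y] at this
    exact this.symm
  · intro h x y
    rw [comm23 a c y, comm23 a (t a x c) y, h]

section pointed

variable [Pt Ω]

/-- The elementary abelian group attached to the base point. -/
@[reducible] noncomputable def grp : AddCommGroup Ω :=
  letI : Add Ω := ⟨pl o⟩
  letI : Zero Ω := ⟨o⟩
  letI : Neg Ω := ⟨id⟩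
  { add := pl o
    zero := o
    neg := id
    nsmul := nsmulRec
    zsmul := zsmulRec
    add_assoc := fun x y z => id_assoc (t_pl o x y) (t_pl o _ z) (t_pl o y z) (t_pl o x _)
    zero_add := fun x => pl_eq (t211 o x)
    add_zero := fun x => pl_eq (p213 (t211 o x))
    neg_add_cancel := fun x => pl_eq (t112 x o)
    add_comm := fun x y => pl_eq (p213 (t_pl o y x)) }

attribute [local instance] grp

theorem V_add (x y : Ω) : x + y = pl o x y := rfl
theorem V_zero : (0 : Ω) = o := rfl
theorem V_two (x : Ω) : x + x = 0 := pl_eq (t112 x o)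

/-- An automorphism fixing the base point is additive. -/
noncomputable def autAdd {g : Perm Ω} (hg : IsAut g) (ha : g o = o) : Ω ≃+ Ω where
  toEquiv := g
  map_add' x y := by
    have := hg x y (pl o x y)
    rw [t_pl, ha] at this
    exact (pl_eq this.symm).symm

/-- The square of a left translation. -/
noncomputable def beta (x : Ω) : Ω ≃+ Ω :=
  autAdd (g := lam o x * lam o x) ((isAut_lam o x).mul (isAut_lam o x))
    (by simp only [Perm.mul_apply, lam_apply, t121, t211])

theorem beta_apply (x w : Ω) : beta x w = t o x (t o x w) := rfl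

theorem beta_t (y u v w : Ω) : beta y (t u v w) = t (beta y u) (beta y v) (beta y w) :=
  ((isAut_lam o y).mul (isAut_lam o y)) u v w

theorem beta_base (y : Ω) : beta y o = o := by rw [beta_apply, t121, t211]

theorem mul_eq_beta (x y : Ω) : t o x y = beta x y + beta y x := by
  symm
  rw [V_add]
  apply pl_eq
  have h := sdL o (t o x y) x y o
  rw [p231 (rfl : t o x y = _), t211, t121] at h
  rw [beta_apply, beta_apply, comm23 o y x, comm23 o x (t o x y), comm23 o y (t o x y)]
  exact h.symm

/-- `b x = 1 + beta x`. -/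
noncomputable def bb (x w : Ω) : Ω := w + beta x w

theorem bb_eq (x w : Ω) : bb x w = pl o w (t o x (t o x w)) := rfl

theorem I2 (x y w e : Ω) (he : t o (t o x y) (t o x e) = t o x (t o (t o x y) w)) :
    bb x w + bb y w + bb (x + y) w = w + e := by
  have h := id_two (a := o) (b := x) (c := y) (w := w) (t_pl o x y) rfl rfl (t_pl _ _ _)
    rfl rfl rfl he rfl rfl (t_pl _ _ _)
  rw [← V_add, ← V_add, ← V_add, mul_eq_beta, mul_eq_beta, mul_eq_beta, map_add] at h
  unfold bb
  linear_combination (norm := abel) h + V_two w + V_two (beta (x + y) w)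

theorem I3 (x y w : Ω) : bb x (bb x w) + bb y (bb x w) + bb (x + y) (bb x w) = 0 := by
  rw [I2 x y (bb x w) (bb x w), V_two]
  have h := id_three (a := o) (b := x) (c := w) (w := t o x y) rfl rfl
    (t_pl o _ _) rfl rfl rfl rfl
  rw [comm23 o (t o x y) (t o x (bb x w)), comm23 o (t o x y) (bb x w), bb_eq]
  exact h.symm

theorem I9 (x y w : Ω) : bb (bb y x) w = 0 := by
  have h := id_nine (a := o) (b := y) (c := x) (w := w) rfl rfl (t_pl o _ _) rfl rfl
  rw [← bb_eq, ← beta_apply] at h
  rw [bb, h, V_two]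

theorem bb_conj (x y w : Ω) : bb (beta y x) (beta y w) = beta y (bb x w) := by
  unfold bb
  rw [map_add, beta_apply x w, beta_t, beta_t, beta_base, ← beta_apply]

theorem Nmu_of_periodic [Finite Ω] (x w : Ω)
    (hw : w ∈ Function.periodicPts (bb x)) : Nmu o w := by
  have h := core_sym V_two beta bb (fun _ _ => rfl) I3 I9 bb_conj hw
  rw [Nmu_iff]
  intro y m
  obtain ⟨z, rfl⟩ := surjL o y m
  obtain ⟨q, hq⟩ := surjL o (t o y z) (t o y (t o (t o y z) w))
  obtain ⟨e, rfl⟩ := surjL o y q
  have h1 := I2 y z w e hq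
  rw [h y z] at h1
  have h2 : e = w := by
    linear_combination (norm := abel) - h1 - V_two w
  rw [← hq, h2]

theorem card_sym' [Finite Ω] : ∃ k, Nat.card Ω = 2 ^ k := by
  have h : IsPGroup 2 (Multiplicative Ω) := by
    intro g
    refine ⟨1, ?_⟩
    rw [pow_one, pow_two]
    exact congrArg Multiplicative.ofAdd (V_two (Multiplicative.toAdd g))
  exact (IsPGroup.iff_card (G := Multiplicative Ω)).mp h

theorem lam_two_elt [Finite Ω]
    (h : ∀ x w : Ω, w ∈ Function.periodicPts (bb x) → w = o) (u v : Ω) :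
    ∃ n, lam u v ^ 2 ^ n = 1 := by
  obtain ⟨x, rfl⟩ := surjL o u v
  suffices hx : ∃ n, lam o x ^ 2 ^ n = 1 by
    obtain ⟨n, hn⟩ := hx
    refine ⟨n, ?_⟩
    have := (isAut_lam o u).lam_conj o x
    rw [lam_apply, lam_apply, t121] at this
    rw [← this, conj_pow, hn]
    simp
  let B : AddMonoid.End Ω := (beta x).toAddMonoidHom
  let b : AddMonoid.End Ω := 1 + B
  have hbn : ∀ n w, (b ^ n) w = (bb x)^[n] w := by
    intro n
    induction n with
    | zero => intro w; rfl
    | succ n ih =>
      intro w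
      rw [pow_succ, Function.iterate_succ_apply, ← ih]
      rfl
  have hnil : ∀ w : Ω, ∃ m, (b ^ m) w = 0 := by
    intro w
    obtain ⟨i, j, hij, e⟩ := Finite.exists_ne_map_eq_of_infinite (fun n : ℕ => (bb x)^[n] w)
    wlog hlt : i < j generalizing i j
    · exact this j i hij.symm e.symm (by omega)
    refine ⟨i, ?_⟩
    rw [hbn]
    apply h x
    refine ⟨j - i, by omega, ?_⟩
    change (bb x)^[j - i] ((bb x)^[i] w) = (bb x)^[i] w
    rw [← Function.iterate_add_apply, show j - i + i = j by omega]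
    exact e.symm
  choose m hm using hnil
  obtain ⟨N, hN⟩ := (Set.finite_range m).bddAbove
  have hbN : b ^ 2 ^ N = 0 := by
    ext w
    have h1 : m w ≤ 2 ^ N := (hN ⟨w, rfl⟩).trans Nat.lt_two_pow_self.le
    obtain ⟨d, hd⟩ := Nat.exists_eq_add_of_le' h1
    rw [hd, pow_add]
    change (b ^ d) ((b ^ m w) w) = 0
    rw [hm, map_zero]
  have h2 : ∀ f : AddMonoid.End Ω, f + f = 0 := fun f => by
    ext w
    exact V_two _
  have hB : ∀ i, B ^ 2 ^ i = 1 + b ^ 2 ^ i := by
    intro i
    induction i with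
    | zero =>
      simp only [pow_zero, pow_one, b]
      rw [← add_assoc, h2, zero_add]
    | succ i ih =>
      rw [pow_succ 2 i, pow_mul, pow_mul, ih, pow_two, pow_two]
      have := h2 (b ^ 2 ^ i)
      linear_combination (norm := noncomm_ring) this
  have hBn : ∀ n w, (B ^ n) w = ((lam o x * lam o x) ^ n) w := by
    intro n
    induction n with
    | zero => intro w; rfl
    | succ n ih =>
      intro w
      rw [pow_succ, pow_succ, Perm.mul_apply, ← ih]
      rfl
  refine ⟨N + 1, ?_⟩
  rw [pow_succ' 2 N, pow_mul, pow_two]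
  ext w
  rw [← hBn, hB, hbN, add_zero]
  rfl

end pointed

theorem card_sym [Finite Ω] (a : Ω) : ∃ k, Nat.card Ω = 2 ^ k :=
  letI : Pt Ω := ⟨a⟩
  card_sym'

/-- Either the middle nucleus is nontrivial or all translations have order a power of two. -/
theorem Nmu_or_two_elt [Finite Ω] (a : Ω) :
    (∃ c, c ≠ a ∧ Nmu a c) ∨ ∀ u v : Ω, ∃ n, lam u v ^ 2 ^ n = 1 := by
  let _ : Pt Ω := ⟨a⟩
  by_cases h : ∀ x w : Ω, w ∈ Function.periodicPts (bb x) → w = o
  · exact Or.inr (lam_two_elt h)
  · push Not at h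
    obtain ⟨x, w, hw, hne⟩ := h
    exact Or.inl ⟨w, hne, Nmu_of_periodic x w hw⟩

end Heap

end Pool.Agent.MP_20a840_al.H92
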