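import Pool.Agent.MP_20a840_al.H92.Sym

namespace Pool.Agent.MP_20a840_al.H92

namespace Heap

open Equiv

universe u

variable {Ω : Type u} [Heap Ω] [IsSym Ω]

theorem lam_comm (u v : Ω) : lam u v = lam v u := by
  ext w
  exact comm12 u v w

/-- The group generated by the translations inside a subset. -/
def Pm (m : Set Ω) : Subgroup (Perm Ω) := Subgroup.closure {g | ∃ u ∈ m, ∃ v ∈ m, g = lam u v}

/-- Automorphisms mapping a finite subset into itself. -/
def Stab [Finite Ω] (m : Set Ω) : Subgroup (Perm Ω) where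
  carrier := {g | IsAut g ∧ ∀ x ∈ m, g x ∈ m}
  one_mem' := ⟨isAut_one, fun _ h => h⟩
  mul_mem' := by
    rintro g h ⟨hg, hg'⟩ ⟨hh, hh'⟩
    exact ⟨hg.mul hh, fun x hx => hg' _ (hh' x hx)⟩
  inv_mem' := by
    rintro g ⟨hg, hg'⟩
    refine ⟨hg.inv, fun x hx => ?_⟩
    have h1 : g '' m = m := by
      refine Set.eq_of_subset_of_ncard_le ?_ ?_ (Set.toFinite _)
      · rintro _ ⟨y, hy, rfl⟩
        exact hg' y hy
      · rw [Set.ncard_image_of_injective _ g.injective]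
    obtain ⟨y, hy, rfl⟩ := h1.symm ▸ hx
    simpa using hy

/-- If every translation has order a power of two, the translations generate a `2`-group. -/
theorem two_group [Finite Ω] (a : Ω) (h : ∀ u v : Ω, ∃ n, lam u v ^ 2 ^ n = 1) :
    IsPGroup 2 (Pm (Set.univ : Set Ω)) := by
  obtain ⟨k, hk⟩ := card_sym a
  have h0 : IsPGroup 2 (Pm ({a} : Set Ω)) := by
    have : Pm ({a} : Set Ω) = ⊥ := by
      rw [Pm, Subgroup.closure_eq_bot_iff]
      rintro g ⟨u, rfl, v, rfl, rfl⟩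
      ext w
      exact t112 _ w
    rw [this]
    exact IsPGroup.of_bot
  obtain ⟨m, ham, hm⟩ := Finite.exists_le_maximal
    (p := fun m : Set Ω => (∀ u ∈ m, ∀ v ∈ m, ∀ w ∈ m, t u v w ∈ m) ∧ IsPGroup 2 (Pm m))
    (a := {a}) ⟨by rintro u rfl v rfl w rfl; exact t112 _ _, h0⟩
  have ha : a ∈ m := ham rfl
  by_cases hmu : m = Set.univ
  · exact hmu ▸ hm.prop.2
  exfalso
  obtain ⟨x0, hx0⟩ := (Set.ne_univ_iff_exists_notMem m).mp hmu
  have hPM : Pm m ≤ Stab m := by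
    rw [Pm, Subgroup.closure_le]
    rintro g ⟨u, hu, v, hv, rfl⟩
    exact ⟨isAut_lam u v, fun w hw => hm.prop.1 u hu v hv w hw⟩
  obtain ⟨SM, hPSM, hSM⟩ := exists_maximal_pgroup hPM hm.prop.2
  have hSA : Stab m ≤ Aut Ω := fun g hg => hg.1
  obtain ⟨S, hSMS, hS⟩ := exists_maximal_pgroup (hSM.prop.1.trans hSA) hSM.prop.2
  have hne : SM ≠ S := by
    intro e
    obtain ⟨g, hg, hgx⟩ := maximal_pgroup_transitive hk Aut_trans hS a x0
    exact hx0 (hgx ▸ (hSM.prop.1 (e ▸ hg)).2 a ha)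
  obtain ⟨g, hgS, hgSM, hgN⟩ := normalizer_grows hS.prop.2 hSMS hne
  have hgA : IsAut g := hS.prop.1 hgS
  have hgM : g ∉ Stab m := by
    intro hg
    have : S ⊓ Stab m ≤ SM :=
      hSM.le_of_ge ⟨inf_le_right, hS.prop.2.to_inf_left⟩ (le_inf hSMS hSM.prop.1)
    exact hgSM (this ⟨hgS, hg⟩)
  have hlamm : ∀ u ∈ m, ∀ v ∈ m, lam u v ∈ SM := fun u hu v hv =>
    hPSM (Subgroup.subset_closure ⟨u, hu, v, hv, rfl⟩)
  set m' : Set Ω := g '' m with hm'
  have hlamm' : ∀ u ∈ m', ∀ v ∈ m', lam u v ∈ SM := by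
    rintro _ ⟨u, hu, rfl⟩ _ ⟨v, hv, rfl⟩
    rw [← hgA.lam_conj]
    exact (Subgroup.mem_normalizer_iff.mp hgN _).mp (hlamm u hu v hv)
  have hSMm : ∀ f ∈ SM, ∀ x ∈ m, f x ∈ m := fun f hf => (hSM.prop.1 hf).2
  have hSMm' : ∀ f ∈ SM, ∀ x ∈ m', f x ∈ m' := by
    rintro f hf _ ⟨x, hx, rfl⟩
    have h1 : g⁻¹ * f * g ∈ SM := by
      apply (Subgroup.mem_normalizer_iff.mp hgN _).mpr
      simpa [mul_assoc] using hf
    exact ⟨_, hSMm _ h1 x hx, by simp⟩
  have c1 : ∀ u ∈ m, ∀ v ∈ m, ∀ w ∈ m', t u v w ∈ m' := fun u hu v hv w hw =>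
    hSMm' _ (hlamm u hu v hv) w hw
  have c2 : ∀ u ∈ m', ∀ v ∈ m', ∀ w ∈ m, t u v w ∈ m := fun u hu v hv w hw =>
    hSMm _ (hlamm' u hu v hv) w hw
  have c3 : ∀ u ∈ m', ∀ v ∈ m', ∀ w ∈ m', t u v w ∈ m' := fun u hu v hv w hw =>
    hSMm' _ (hlamm' u hu v hv) w hw
  have hclosed : ∀ u ∈ m ∪ m', ∀ v ∈ m ∪ m', ∀ w ∈ m ∪ m', t u v w ∈ m ∪ m' := by
    rintro u (hu | hu) v (hv | hv) w (hw | hw)
    · exact Or.inl (hm.prop.1 u hu v hv w hw)
    · exact Or.inr (c1 u hu v hv w hw)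
    · exact Or.inr (comm23 u v w ▸ c1 u hu w hw v hv)
    · exact Or.inl (p312 (rfl : t v w u = _) ▸ c2 v hv w hw u hu)
    · exact Or.inr (p312 (rfl : t v w u = _) ▸ c1 v hv w hw u hu)
    · exact Or.inl (comm23 u v w ▸ c2 u hu w hw v hv)
    · exact Or.inl (c2 u hu v hv w hw)
    · exact Or.inr (c3 u hu v hv w hw)
  let P : Subgroup (Perm Ω) :=
    Subgroup.closure {f | ∃ u v, ((u ∈ m ∧ v ∈ m) ∨ (u ∈ m' ∧ v ∈ m')) ∧ f = lam u v}
  have hPle : P ≤ SM := by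
    rw [Subgroup.closure_le]
    rintro f ⟨u, v, (⟨hu, hv⟩ | ⟨hu, hv⟩), rfl⟩
    · exact hlamm u hu v hv
    · exact hlamm' u hu v hv
  have hP1 : ∀ u ∈ m, ∀ v ∈ m, lam u v ∈ P := fun u hu v hv =>
    Subgroup.subset_closure ⟨u, v, Or.inl ⟨hu, hv⟩, rfl⟩
  have hP2 : ∀ u ∈ m', ∀ v ∈ m', lam u v ∈ P := fun u hu v hv =>
    Subgroup.subset_closure ⟨u, v, Or.inr ⟨hu, hv⟩, rfl⟩
  let X : Set (Perm Ω) := {f | ∃ v ∈ m', f = lam a v}
  have hconj : ∀ v ∈ m', ∀ n ∈ P, lam a v * n * (lam a v)⁻¹ ∈ P := by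
    intro v hv n hn
    induction hn using Subgroup.closure_induction with
    | mem f hf =>
      obtain ⟨u, w, (⟨hu, hw⟩ | ⟨hu, hw⟩), rfl⟩ := hf
      · rw [(isAut_lam a v).lam_conj]
        exact hP2 _ (by rw [lam_apply, comm23]; exact c1 a ha u hu v hv) _
          (by rw [lam_apply, comm23]; exact c1 a ha w hw v hv)
      · rw [(isAut_lam a v).lam_conj]
        exact hP1 _ (by rw [lam_apply, p312 (rfl : t v u a = _)]; exact c2 v hv u hu a ha) _
          (by rw [lam_apply, p312 (rfl : t v w a = _)]; exact c2 v hv w hw a ha)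
    | one => simp
    | mul f f' _ _ hf hf' =>
      have := P.mul_mem hf hf'
      convert this using 1
      group
    | inv f _ hf =>
      have := P.inv_mem hf
      convert this using 1
      group
  have hX : IsPGroup 2 (P ⊔ Subgroup.closure X : Subgroup (Perm Ω)) := by
    apply pgroup_of_comm_mod (hSM.prop.2.to_le hPle)
    · rintro _ ⟨v, hv, rfl⟩
      exact Subgroup.mem_normalizer_fintype (hconj v hv)
    · rintro _ ⟨v, hv, rfl⟩ _ ⟨w, hw, rfl⟩
      have e1 := (isAut_lam a v).lam_conj a w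
      have e2 := (isAut_lam v w).lam_conj a w
      rw [lam_apply, lam_apply, t121] at e1
      rw [lam_apply, lam_apply, t211, p231 (rfl : t a v w = _), lam_comm _ v, ← e1] at e2
      rw [← e2]
      have := P.mul_mem (hP2 v hv w hw) (hconj w hw _ (P.inv_mem (hP2 v hv w hw)))
      convert this using 1
      group
    · rintro _ ⟨v, _, rfl⟩
      exact h a v
  have hcross : ∀ u ∈ m, ∀ v ∈ m', lam u v ∈ P ⊔ Subgroup.closure X := by
    intro u hu v hv
    have h1 : (lam a u)⁻¹ v ∈ m' := hSMm' _ (SM.inv_mem (hlamm a ha u hu)) v hv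
    have e := (isAut_lam a u).lam_conj a ((lam a u)⁻¹ v)
    rw [lam_apply, lam_apply, t121, t_lam_inv] at e
    rw [← e]
    have h2 : lam a u ∈ P ⊔ Subgroup.closure X := Subgroup.mem_sup_left (hP1 a ha u hu)
    exact Subgroup.mul_mem _ (Subgroup.mul_mem _ h2
      (Subgroup.mem_sup_right (Subgroup.subset_closure ⟨_, h1, rfl⟩))) (Subgroup.inv_mem _ h2)
  have hbig : IsPGroup 2 (Pm (m ∪ m')) := by
    apply hX.to_le
    rw [Pm, Subgroup.closure_le]
    rintro _ ⟨u, (hu | hu), v, (hv | hv), rfl⟩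
    · exact Subgroup.mem_sup_left (hP1 u hu v hv)
    · exact hcross u hu v hv
    · rw [lam_comm]
      exact hcross v hv u hu
    · exact Subgroup.mem_sup_left (hP2 u hu v hv)
  have hle : m ∪ m' ≤ m := hm.le_of_ge ⟨hclosed, hbig⟩ Set.subset_union_left
  exact hgM ⟨hgA, fun x hx => hle (Or.inr ⟨x, hx, rfl⟩)⟩

/-- A finite nontrivial symmetric heap has a nontrivial middle nucleus. -/
theorem exists_Nmu_sym [Finite Ω] {a b : Ω} (hab : b ≠ a) : ∃ c, c ≠ a ∧ Nmu a c := by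
  rcases Nmu_or_two_elt a with h | h
  · exact h
  have hP := two_group a h
  obtain ⟨k, hk⟩ := card_sym a
  have hdvd : 2 ∣ Nat.card Ω := by
    rw [hk]
    apply dvd_pow_self
    rintro rfl
    have : Subsingleton Ω := (Nat.card_eq_one_iff_unique.mp hk).1
    exact hab (Subsingleton.elim _ _)
  let H : Subgroup (Perm Ω) := Pm Set.univ ⊓ MulAction.stabilizer (Perm Ω) a
  have hH : IsPGroup 2 H := hP.to_inf_left
  obtain ⟨c, hc, hac⟩ := hH.exists_fixed_point_of_prime_dvd_card_of_fixed_point Ω hdvd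
    (a := a) (fun g => g.2.2)
  refine ⟨c, hac.symm, ?_⟩
  rw [Nmu_iff]
  intro x y
  have hl : ∀ z, lam a z ∈ Pm (Set.univ : Set Ω) := fun z =>
    Subgroup.subset_closure ⟨a, trivial, z, trivial, rfl⟩
  have he : (lam a x)⁻¹ * (lam a y)⁻¹ * lam a x * lam a y ∈ H := by
    refine ⟨Subgroup.mul_mem _ (Subgroup.mul_mem _ (Subgroup.mul_mem _
      (Subgroup.inv_mem _ (hl x)) (Subgroup.inv_mem _ (hl y))) (hl x)) (hl y), ?_⟩
    change (lam a x)⁻¹ ((lam a y)⁻¹ (t a x (t a y a))) = a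
    rw [t121, comm23, lam_inv_t]
    nth_rewrite 2 [← t121 a x]
    rw [lam_inv_t]
  have h1 : (lam a x)⁻¹ ((lam a y)⁻¹ (t a x (t a y c))) = c := hc ⟨_, he⟩
  rw [Perm.inv_eq_iff_eq, Perm.inv_eq_iff_eq] at h1
  exact h1

omit [IsSym Ω] in
theorem IsAut.Nmu {g : Perm Ω} (hg : IsAut g) {a c : Ω} (h : Nmu a c) : Nmu (g a) (g c) := by
  intro x y
  obtain ⟨x, rfl⟩ := g.surjective x
  obtain ⟨y, rfl⟩ := g.surjective y
  rw [← hg, ← hg, ← hg, ← hg, h]

theorem Nmu_t {a c d : Ω} (hc : Nmu a c) (hd : Nmu a d) : Nmu a (t a c d) := by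
  rw [Nmu_iff] at hc hd ⊢
  intro x y
  rw [sdL a y a c d, sdL a x a c d, t121, t121, sdL a x y, sdL a y x, hc, hd, comm23 a x y]

theorem isCong_Nmu : IsCong (Nmu : Ω → Ω → Prop) := by
  apply IsCong.of_aut
  · refine ⟨fun a x y => by rw [t121, t112], fun {a c} h => ?_, fun {a c d} h1 h2 => ?_⟩
    · have := (isAut_lam a c).Nmu h
      rwa [lam_apply, lam_apply, t121, t211] at this
    · obtain ⟨d, rfl⟩ := surjL a c d
      have := (isAut_lam a c).inv.Nmu h2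
      rw [lam_inv_t] at this
      nth_rewrite 2 [← t121 a c] at this
      rw [lam_inv_t] at this
      exact Nmu_t h1 this
  · intro g hg x y h
    exact hg.Nmu h

/-- Every nontrivial normal subloop meets the middle nucleus. -/
theorem exists_Nmu_mem (n : ℕ) : ∀ (Ω : Type u) [Heap Ω] [IsSym Ω] [Finite Ω], Nat.card Ω = n →
    ∀ (a : Ω) (A : Set Ω), (∀ x ∈ A, ∀ y ∈ A, ∀ z, t x y z = a → z ∈ A) →
    (∀ x y, ∀ c ∈ A, ∀ c', t a x (t a y c) = t a y (t a x c') → c' ∈ A) →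
    (∃ b ∈ A, b ≠ a) → ∃ c ∈ A, c ≠ a ∧ Nmu a c := by
  induction n using Nat.strong_induction_on with
  | _ n ih =>
  intro Ω _ _ _ hn a A hA1 hA2 ⟨b, hb, hba⟩
  by_contra hcon
  push Not at hcon
  obtain ⟨c0, hc0, hc0'⟩ := exists_Nmu_sym hba
  have hr : IsCong (Nmu : Ω → Ω → Prop) := isCong_Nmu
  let _ : Heap (Quotient hr.setoid) := hr.heap
  have ht : ∀ u v w : Ω, t (Quotient.mk hr.setoid u) (Quotient.mk _ v) (Quotient.mk _ w)
      = Quotient.mk _ (t u v w) := fun _ _ _ => rfl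
  have : IsSym (Quotient hr.setoid) := ⟨fun u v => by
    induction u using Quotient.inductionOn
    induction v using Quotient.inductionOn
    rw [ht, t211]⟩
  have hlt : Nat.card (Quotient hr.setoid) < n := by
    rw [← hn]
    apply lt_of_le_of_ne (Nat.card_le_card_of_surjective _ Quotient.mk_surjective)
    intro e
    have hb := (Quotient.mk_surjective (s := hr.setoid)).bijective_of_nat_card_le e.ge
    exact hc0 (hb.1 (Quotient.sound hc0')).symm
  obtain ⟨_, ⟨c, hc, rfl⟩, hca, hcN⟩ := ih _ hlt (Quotient hr.setoid) rfl (Quotient.mk _ a)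
    (Quotient.mk hr.setoid '' A)
    (by
      rintro _ ⟨x, hx, rfl⟩ _ ⟨y, hy, rfl⟩ z hz
      obtain ⟨z0, hz0⟩ := surjL x y a
      exact ⟨z0, hA1 x hx y hy z0 hz0, cancL (by rw [ht, hz0]) hz⟩)
    (by
      rintro x y _ ⟨c, hc, rfl⟩ c' hc'
      induction x using Quotient.inductionOn with | _ x
      induction y using Quotient.inductionOn with | _ y
      obtain ⟨q, hq⟩ := surjL a y (t a x (t a y c))
      obtain ⟨c1, rfl⟩ := surjL a x q
      refine ⟨c1, hA2 x y c hc c1 hq.symm, ?_⟩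
      have h1 := congrArg (Quotient.mk hr.setoid) hq
      rw [← ht, ← ht, ← ht, ← ht, hc'] at h1
      exact cancL (cancL h1 rfl) rfl)
    ⟨_, ⟨b, hb, rfl⟩, fun e => hcon b hb hba (hr.equiv.symm (Quotient.exact e))⟩
  apply hcon c hc (fun e => hca (by rw [e]))
  rw [Nmu_iff] at hcN ⊢
  intro x y
  obtain ⟨q, hq⟩ := surjL a y (t a x (t a y c))
  obtain ⟨c1, rfl⟩ := surjL a x q
  have hc1 : c1 ∈ A := hA2 x y c hc c1 hq.symm
  have h1 := congrArg (Quotient.mk hr.setoid) hq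
  rw [← ht, ← ht, ← ht, ← ht, hcN] at h1
  have h2 : Nmu c1 c := Quotient.exact (cancL (cancL h1 rfl) rfl)
  obtain ⟨z, hz⟩ := surjL c c1 a
  have hzA : z ∈ A := hA1 c hc c1 hc1 z hz
  have hzN : Nmu a z := by
    have := hr.t_congr (hr.equiv.refl c) h2 (hr.equiv.refl z)
    rwa [hz, t112] at this
  have hza : z = a := by
    by_contra hne
    exact hcon z hzA hne hzN
  rw [hza] at hz
  have : c1 = c := cancR hz (t112 c a)
  rw [← hq, this]

end Heap

end Pool.Agent.MP_20a840_al.H92
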