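import Pool.Agent.MP_20a840_al.H92.Heap

/-!
Commutative automorphic loops of exponent two: the ternary operation is totally symmetric.
The four identities below were found by a saturation search.
-/

namespace Pool.Agent.MP_20a840_al.H92

namespace Heap

/-- Exponent two. -/
class IsSym (Ω : Type*) [Heap Ω] : Prop where
  sq : ∀ u v : Ω, t u v v = u

variable {Ω : Type*} [Heap Ω] [IsSym Ω]

theorem t211 (u v : Ω) : t u v v = u := IsSym.sq u v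

theorem s_eq_self (a x : Ω) : s a x = x := s_eq (t211 a x)

theorem comm23 (u v w : Ω) : t u v w = t u w v := by
  have := s_t_base u v w
  rwa [s_eq_self, s_eq_self, s_eq_self] at this

theorem comm12 (u v w : Ω) : t u v w = t v u w := by
  obtain ⟨w', rfl⟩ := surjL u v w
  have := sdL u v u v w'
  rw [t121, t211] at this
  exact this

section schema
variable {u v x y z w X Y Z W : Ω}

theorem p132 (h : t x y z = w) : t x z y = w := by rw [comm23, h]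
theorem p213 (h : t x y z = w) : t y x z = w := by rw [comm12, h]
theorem p231 (h : t x y z = w) : t y z x = w := by rw [comm23, comm12, h]
theorem p312 (h : t x y z = w) : t z x y = w := by rw [comm12, comm23, h]
theorem p321 (h : t x y z = w) : t z y x = w := by rw [comm12, comm23, comm12, h]

omit [IsSym Ω] in
theorem surj (u v z : Ω) : ∃ p, t u v p = z := surjL u v z
omit [IsSym Ω] in
theorem canc {u v r r' w : Ω} (h1 : t u v r = w) (h2 : t u v r' = w) : r = r' := cancL h1 h2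
omit [IsSym Ω] in
theorem sdA (B : t u v x = X) (C : t u v y = Y) (D : t u v z = Z) (E : t u v w = W)
    (G : t X Y Z = W) : t x y z = w := sdlA B C D E G
omit [IsSym Ω] in
theorem sdD (A : t x y z = w) (B : t u v x = X) (C : t u v y = Y) (E : t u v w = W)
    (G : t X Y Z = W) : t u v z = Z := sdlD A B C E G
omit [IsSym Ω] in
theorem sdE (A : t x y z = w) (B : t u v x = X) (C : t u v y = Y) (D : t u v z = Z)
    (G : t X Y Z = W) : t u v w = W := sdlE A B C D G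
omit [IsSym Ω] in
theorem sdG (A : t x y z = w) (B : t u v x = X) (C : t u v y = Y) (D : t u v z = Z)
    (E : t u v w = W) : t X Y Z = W := sdlG A B C D E
end schema

/-- Associativity of the derived addition. -/
theorem id_assoc {a b c w p4 p5 p6 p7 : Ω}
    (h0 : t b c p4 = a)
    (h1 : t p4 w p5 = a)
    (h2 : t c w p6 = a)
    (h3 : t b p6 p7 = a) :
    p5 = p7 := by
  obtain ⟨p8, h4⟩ : ∃ p, t a b c = p := ⟨_, rfl⟩
  obtain ⟨p9, h5⟩ : ∃ p, t a c w = p := ⟨_, rfl⟩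
  obtain ⟨p10, h6⟩ : ∃ p, t b c w = p := ⟨_, rfl⟩
  obtain ⟨p11, h7⟩ : ∃ p, t b c p5 = p := ⟨_, rfl⟩
  obtain ⟨p12, h8⟩ : ∃ p, t c w p7 = p := ⟨_, rfl⟩
  obtain ⟨p13, h9⟩ : ∃ p, t a c p = p10 := surj _ _ _
  obtain ⟨p14, h10⟩ : ∃ p, t a c p = p11 := surj _ _ _
  obtain ⟨p15, h11⟩ : ∃ p, t a c p = p12 := surj _ _ _
  have h12 : t p11 p10 a = p8 := sdG (p321 h1) h7 h6 h0 (p231 h4)
  have h13 : t p12 p10 a = p9 := sdG (p312 h3) h8 (p231 h6) h2 (p231 h5)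
  have h14 : t c p15 p13 = w := sdA (t211 _ _) h11 h9 h5 (p312 h13)
  have h15 : t c p13 p14 = b := sdA (t211 _ _) h9 h10 (p132 h4) (p321 h12)
  have h16 : t p13 p14 p15 = a := sdA (t211 _ _) h15 (p132 h14) (p231 h9) (p213 h6)
  have h18 : t c p14 p15 = p5 := sdD (p213 h16) (t211 _ _) (p132 h15) (p231 h10) (p213 h7)
  have h19 : t c p15 p14 = p7 := sdD (p312 h16) (t211 _ _) h14 (p231 h11) h8
  exact func (p132 h18) h19

/-- Second difference of a left translation. -/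
theorem id_two {a b c w p4 p5 p6 p7 p8 p9 p10 p11 p12 p13 p14 : Ω}
    (h0 : t b c p4 = a)
    (h1 : t a w c = p5)
    (h2 : t a w b = p6)
    (h3 : t p6 p5 p7 = a)
    (h4 : t a b c = p8)
    (h5 : t a p8 w = p9)
    (h6 : t a b p9 = p10)
    (h7 : t a p8 p11 = p10)
    (h8 : t a b p12 = p11)
    (h9 : t a w p4 = p13)
    (h10 : t p13 p12 p14 = a) :
    p7 = p14 := by
  obtain ⟨p15, h11⟩ : ∃ p, t a b p8 = p := ⟨_, rfl⟩
  obtain ⟨p16, h12⟩ : ∃ p, t a c p8 = p := ⟨_, rfl⟩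
  obtain ⟨p17, h13⟩ : ∃ p, t a c p = p9 := surj _ _ _
  obtain ⟨p18, h14⟩ : ∃ p, t a p5 p6 = p := ⟨_, rfl⟩
  obtain ⟨p19, h15⟩ : ∃ p, t a p5 p8 = p := ⟨_, rfl⟩
  obtain ⟨p20, h16⟩ : ∃ p, t a p6 p8 = p := ⟨_, rfl⟩
  obtain ⟨p21, h17⟩ : ∃ p, t a p8 p12 = p := ⟨_, rfl⟩
  obtain ⟨p22, h18⟩ : ∃ p, t b c p13 = p := ⟨_, rfl⟩
  obtain ⟨p23, h19⟩ : ∃ p, t b p8 p = p10 := surj _ _ _
  have h21 : t a b p17 = p23 := sdD h13 (t121 _ _) h4 h6 h19
  have h24 : t p13 p6 p5 = w := sdG (p312 h0) h9 h2 h1 (t121 _ _)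
  have h25 : t p8 p21 p15 = p10 := sdG (p132 h8) (t121 _ _) h17 (p132 h11) h7
  have h27 : t p8 p16 p9 = p19 := sdG (p132 h1) (t121 _ _) (p132 h12) h5 (p132 h15)
  have h29 : t b p8 p17 = p21 := sdD (p213 h21) (t121 _ _) (p231 h11) h19 (p132 h25)
  have h30 : t a c p21 = p19 := sdE (p321 h29) h13 h12 (p132 h4) (p321 h27)
  have h31 : t c b w = p21 := sdA (t211 _ _) (p132 h4) (p132 h1) h30 (p132 h15)
  have h32 : t a b p21 = p20 := sdE (p213 h31) (t211 _ _) h4 (p132 h2) (p132 h16)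
  have h33 : t a w p21 = p18 := sdE (p321 h31) (t211 _ _) h2 h1 (p132 h14)
  have h34 : t p21 p8 a = p22 := sdG (p213 h9) (p213 h31) (p231 h4) h0 h18
  have h38 : t p21 p20 p19 = p22 := sdG h4 (t121 _ _) (p132 h32) (p132 h30) (p312 h34)
  have h40 : t p12 p6 p5 = p21 := sdA h17 (p132 h16) (p132 h15) (p321 h34) h38
  have h41 : t p5 p6 p14 = a := sdD (p213 h10) (p321 h40) (p321 h24) (p231 h14) (p321 h33)
  exact canc (p213 h3) h41

/-- The element `c + b (b c)` associates with `b`. -/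
theorem id_three {a b c w p4 p5 p6 p7 p8 p9 p10 : Ω}
    (h0 : t a b c = p4)
    (h1 : t a b p4 = p5)
    (h2 : t c p5 p6 = a)
    (h3 : t a p6 w = p7)
    (h4 : t a b p7 = p8)
    (h5 : t a b p6 = p9)
    (h6 : t a p9 w = p10) :
    p8 = p10 := by
  obtain ⟨p11, h7⟩ : ∃ p, t a b p5 = p := ⟨_, rfl⟩
  obtain ⟨p12, h8⟩ : ∃ p, t a c p4 = p := ⟨_, rfl⟩
  obtain ⟨p13, h9⟩ : ∃ p, t a c p6 = p := ⟨_, rfl⟩
  obtain ⟨p14, h10⟩ : ∃ p, t a c p7 = p := ⟨_, rfl⟩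
  obtain ⟨p15, h11⟩ : ∃ p, t a c p8 = p := ⟨_, rfl⟩
  obtain ⟨p16, h12⟩ : ∃ p, t a p4 p5 = p := ⟨_, rfl⟩
  obtain ⟨p17, h13⟩ : ∃ p, t a p4 p6 = p := ⟨_, rfl⟩
  obtain ⟨p18, h14⟩ : ∃ p, t a p4 p7 = p := ⟨_, rfl⟩
  obtain ⟨p19, h15⟩ : ∃ p, t a p4 p8 = p := ⟨_, rfl⟩
  obtain ⟨p20, h16⟩ : ∃ p, t b c p4 = p := ⟨_, rfl⟩
  obtain ⟨p21, h17⟩ : ∃ p, t b c p5 = p := ⟨_, rfl⟩
  obtain ⟨p22, h18⟩ : ∃ p, t b c p7 = p := ⟨_, rfl⟩
  obtain ⟨p23, h19⟩ : ∃ p, t b c p8 = p := ⟨_, rfl⟩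
  obtain ⟨p24, h20⟩ : ∃ p, t b p4 p5 = p := ⟨_, rfl⟩
  obtain ⟨p25, h21⟩ : ∃ p, t b p4 p7 = p := ⟨_, rfl⟩
  obtain ⟨p26, h22⟩ : ∃ p, t b p4 p8 = p := ⟨_, rfl⟩
  obtain ⟨p27, h23⟩ : ∃ p, t c p4 p8 = p := ⟨_, rfl⟩
  obtain ⟨p28, h24⟩ : ∃ p, t c p5 p7 = p := ⟨_, rfl⟩
  obtain ⟨p29, h25⟩ : ∃ p, t c p5 p8 = p := ⟨_, rfl⟩
  obtain ⟨p30, h26⟩ : ∃ p, t c p6 p7 = p := ⟨_, rfl⟩
  obtain ⟨p31, h27⟩ : ∃ p, t p4 p5 p7 = p := ⟨_, rfl⟩
  obtain ⟨p32, h28⟩ : ∃ p, t p4 p5 p = p8 := surj _ _ _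
  obtain ⟨p33, h29⟩ : ∃ p, t a c p22 = p := ⟨_, rfl⟩
  have h30 : t a b p14 = p26 := sdE (p132 h10) (t121 _ _) h4 h0 (p132 h22)
  have h31 : t a b p12 = p24 := sdE (p132 h8) (t121 _ _) h1 h0 (p132 h20)
  have h32 : t a b p22 = p19 := sdE (p132 h18) (t211 _ _) h4 h0 (p132 h15)
  have h33 : t a b p20 = p16 := sdE (p132 h16) (t211 _ _) h1 h0 (p132 h12)
  have h35 : t c p14 p4 = p15 := sdG (p132 h4) (t121 _ _) h10 (p132 h0) h11
  have h36 : t a p14 p4 = p33 := sdG (p231 h18) (t211 _ _) h10 (p132 h0) h29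
  have h37 : t p4 p18 p5 = p19 := sdG (p132 h4) (t121 _ _) h14 (p132 h1) h15
  have h38 : t p4 p12 p5 = a := sdG (p132 h0) (t121 _ _) (p132 h8) (p132 h1) (t211 _ _)
  have h40 : t p5 p16 p11 = a := sdG (p132 h1) (t121 _ _) (p132 h12) (p132 h7) (t211 _ _)
  have h41 : t p6 p13 p9 = p17 := sdG (p132 h0) (t121 _ _) (p132 h9) (p132 h5) (p132 h13)
  have h42 : t p7 p14 p8 = p18 := sdG (p132 h0) (t121 _ _) (p132 h10) (p132 h4) (p132 h14)
  have h43 : t c p22 p4 = p23 := sdG (p231 h4) (t121 _ _) h18 (p231 h0) h19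
  have h44 : t c p20 p4 = p21 := sdG (p231 h1) (t121 _ _) h16 (p231 h0) h17
  have h45 : t p4 p25 p5 = p26 := sdG (p231 h4) (t121 _ _) h21 (p231 h1) h22
  have h46 : t p4 p20 p5 = b := sdG (p231 h0) (t121 _ _) (p132 h16) (p231 h1) (t211 _ _)
  have h47 : t p5 p24 p11 = b := sdG (p231 h1) (t121 _ _) (p132 h20) (p231 h7) (t211 _ _)
  have h48 : t p5 p21 p11 = p24 := sdG (p231 h0) (t121 _ _) (p132 h17) (p231 h7) (p132 h20)
  have h50 : t p4 p20 p12 = c := sdG (p321 h0) (t121 _ _) (p231 h16) (p231 h8) (t211 _ _)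
  have h52 : t p8 p23 p15 = p27 := sdG (p321 h0) (t121 _ _) (p231 h19) (p231 h11) (p132 h23)
  have h53 : t p27 p23 p15 = p29 := sdG (p321 h1) (p132 h23) (p231 h19) (p231 h11) (p132 h25)
  have h54 : t p5 p24 p16 = p4 := sdG (p321 h1) (t121 _ _) (p231 h20) (p231 h12) (t211 _ _)
  have h57 : t p4 p18 p12 = p33 := sdG (p132 h10) (t121 _ _) h14 (p132 h8) (p132 h36)
  have h58 : t p4 p5 c = p11 := sdE (p132 h50) (t121 _ _) (p132 h38) (p132 h46) (p312 h7)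
  have h59 : t p5 p31 p24 = p26 := sdG (p231 h21) (t121 _ _) h27 (p231 h20) (p132 h45)
  have h60 : t p5 p31 p16 = p19 := sdG (p231 h14) (t121 _ _) h27 (p231 h12) (p132 h37)
  have h61 : t p5 p12 p32 = p18 := sdA (t211 _ _) (p132 h38) h28 (p132 h37) (p213 h15)
  have h62 : t p5 p12 p20 = p4 := sdA (t211 _ _) (p132 h38) (p132 h46) (t121 _ _) (p312 h1)
  have h65 : t c p11 p21 = p20 := sdG (p132 h46) (t211 _ _) (p312 h58) (p132 h44) (p231 h16)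
  have h66 : t c p20 p12 = p11 := sdG (p321 h1) (t211 _ _) (p231 h16) (p231 h8) (p312 h58)
  have h67 : t c p5 p20 = p24 := sdE (p231 h16) (t121 _ _) (p321 h58) (p231 h17) (p132 h48)
  have h68 : t p4 p12 p32 = p14 := sdD (p213 h61) (t211 _ _) h38 (p132 h57) (p312 h36)
  have h70 : t p5 p12 c = p16 := sdE (p321 h50) (t211 _ _) h62 (p321 h38) (p321 h12)
  have h74 : t a b p32 = p31 := sdD (p213 h68) h31 h1 h30 (p312 h59)
  have h75 : t c p5 p11 = p4 := sdE (p132 h66) (t121 _ _) (p312 h70) h67 (p132 h54)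
  have h76 : t c p12 p4 = p6 := sdA (t121 _ _) (p312 h70) (p321 h58) h2 h40
  have h77 : t c p5 p21 = b := sdE (p132 h44) (t121 _ _) (p321 h58) h67 (p132 h47)
  have h78 : t c p16 p24 = p11 := sdG h62 (t211 _ _) (p312 h70) h67 (p321 h58)
  have h80 : t c p5 p24 = p20 := sdE (p321 h20) (t211 _ _) (p321 h58) (p231 h17) h65
  have h84 : t p32 p20 p4 = p22 := sdA h74 h33 h1 h32 (p231 h60)
  have h85 : t a c p5 = p6 := sdE (p132 h1) (t121 _ _) h8 (p132 h0) h76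
  have h86 : t c p6 p21 = p4 := sdG (p132 h50) (t211 _ _) (p132 h76) (p132 h44) (t121 _ _)
  have h89 : t c p5 p16 = p12 := sdD (p132 h78) (t121 _ _) h80 h75 (p132 h62)
  have h90 : t p5 p21 p6 = p11 := sdA (t211 _ _) h77 h2 h75 (p321 h0)
  have h93 : t p4 p12 p16 = p17 := sdE (p231 h70) (t211 _ _) (p321 h76) h38 (p231 h13)
  have h94 : t p4 p12 p24 = p13 := sdE (p132 h67) (p321 h76) (p132 h50) h38 (p321 h9)
  have h98 : t a c p21 = p17 := sdE (p231 h17) (t211 _ _) h85 (p132 h0) (p132 h13)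
  have h99 : t a p6 p13 = c := sdG h2 (t211 _ _) h85 h9 (t121 _ _)
  have h103 : t p6 p28 p21 = p29 := sdG (p132 h4) (p231 h85) h24 (p231 h17) h25
  have h106 : t p13 p17 a = p12 := sdG (p231 h54) h94 h93 h38 (t121 _ _)
  have h107 : t p17 p6 a = p4 := sdG (p312 h89) h93 (p321 h76) h38 (t211 _ _)
  have h108 : t p22 p14 p8 = p32 := sdG (p321 h62) (p312 h84) (p132 h68) (p132 h28) (t121 _ _)
  have h120 : t c p4 p32 = p29 := sdE (p132 h108) (p132 h43) h23 (p132 h35) (p213 h53)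
  have h129 : t c p29 p21 = p23 := sdG (p312 h84) (t211 _ _) h120 (p132 h44) (p132 h43)
  have h130 : t c p29 p6 = p15 := sdG (p132 h68) (t211 _ _) h120 (p132 h76) (p132 h35)
  have h131 : t c p29 p11 = p27 := sdG (p132 h28) (t211 _ _) h120 (p312 h58) h23
  have h140 : t c p6 p28 = p14 := sdD (p132 h103) (t211 _ _) h86 (p132 h130) (p132 h35)
  have h141 : t c p21 p28 = p22 := sdD (p312 h103) (t211 _ _) (p132 h86) (p132 h129) (p132 h43)
  have h142 : t c p29 p5 = p8 := sdD (p321 h90) h130 h129 h131 (p321 h52)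
  have h148 : t c p5 p28 = p7 := sdD (p312 h103) h77 h2 (p132 h142) (p213 h4)
  have h149 : t p6 p30 a = p14 := sdG (p132 h24) (t121 _ _) h26 (p132 h2) h140
  have h153 : t a c p28 = p30 := sdD h148 (t211 _ _) h85 h10 (p312 h149)
  have h154 : t p6 p13 w = p30 := sdA (t211 _ _) h99 h3 (p312 h149) h10
  have h155 : t p6 p14 a = p30 := sdG (p132 h148) (t121 _ _) h140 (p132 h2) h26
  have h156 : t a p30 p17 = p33 := sdG (p132 h141) (t211 _ _) h153 h98 h29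
  have h157 : t a p13 w = p14 := sdA (t121 _ _) h99 h3 (p312 h155) (p213 h26)
  have h159 : t a p17 w = p18 := sdD h154 (p312 h107) (p321 h106) (p132 h156) (p132 h57)
  have h160 : t p14 p10 p7 = p18 := sdG (p231 h41) (p132 h157) (p132 h6) (p132 h3) (p132 h159)
  exact canc h42 (p312 h160)

/-- The translation by `c + b (b c)` is an involution. -/
theorem id_nine {a b c w p4 p5 p6 p7 p8 : Ω}
    (h0 : t a b c = p4)
    (h1 : t a b p4 = p5)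
    (h2 : t c p5 p6 = a)
    (h3 : t a p6 w = p7)
    (h4 : t a p6 p7 = p8) :
    p8 = w := by
  obtain ⟨p9, h5⟩ : ∃ p, t a b p = c := surj _ _ _
  obtain ⟨p10, h6⟩ : ∃ p, t a b p7 = p := ⟨_, rfl⟩
  obtain ⟨p11, h7⟩ : ∃ p, t a b p = p7 := surj _ _ _
  obtain ⟨p12, h8⟩ : ∃ p, t a c p4 = p := ⟨_, rfl⟩
  obtain ⟨p13, h9⟩ : ∃ p, t a c p5 = p := ⟨_, rfl⟩
  obtain ⟨p14, h10⟩ : ∃ p, t a p4 p7 = p := ⟨_, rfl⟩
  obtain ⟨p15, h11⟩ : ∃ p, t a p5 p7 = p := ⟨_, rfl⟩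
  obtain ⟨p16, h12⟩ : ∃ p, t b c p4 = p := ⟨_, rfl⟩
  obtain ⟨p17, h13⟩ : ∃ p, t b c p5 = p := ⟨_, rfl⟩
  obtain ⟨p18, h14⟩ : ∃ p, t b c p = p7 := surj _ _ _
  obtain ⟨p19, h15⟩ : ∃ p, t b p4 p7 = p := ⟨_, rfl⟩
  obtain ⟨p20, h16⟩ : ∃ p, t b p4 p = p7 := surj _ _ _
  obtain ⟨p21, h17⟩ : ∃ p, t b p5 p7 = p := ⟨_, rfl⟩
  obtain ⟨p22, h18⟩ : ∃ p, t c p4 p5 = p := ⟨_, rfl⟩
  obtain ⟨p23, h19⟩ : ∃ p, t c p4 p7 = p := ⟨_, rfl⟩
  obtain ⟨p24, h20⟩ : ∃ p, t c p4 p = p7 := surj _ _ _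
  obtain ⟨p25, h21⟩ : ∃ p, t c p5 p7 = p := ⟨_, rfl⟩
  obtain ⟨p26, h22⟩ : ∃ p, t p4 p5 p7 = p := ⟨_, rfl⟩
  obtain ⟨p27, h23⟩ : ∃ p, t p4 p5 p = p7 := surj _ _ _
  obtain ⟨p28, h24⟩ : ∃ p, t p5 p6 p = w := surj _ _ _
  obtain ⟨p29, h25⟩ : ∃ p, t p5 p6 p = p7 := surj _ _ _
  obtain ⟨p30, h26⟩ : ∃ p, t a b p = p15 := surj _ _ _
  obtain ⟨p31, h27⟩ : ∃ p, t a b p20 = p := ⟨_, rfl⟩
  obtain ⟨p32, h28⟩ : ∃ p, t a b p = p21 := surj _ _ _
  obtain ⟨p33, h29⟩ : ∃ p, t a b p24 = p := ⟨_, rfl⟩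
  obtain ⟨p34, h30⟩ : ∃ p, t a b p27 = p := ⟨_, rfl⟩
  obtain ⟨p35, h31⟩ : ∃ p, t a c p = p18 := surj _ _ _
  have h32 : t a p11 p4 = p32 := sdA (t121 _ _) h7 h1 h28 (p132 h17)
  have h33 : t b p11 p4 = p30 := sdA (t211 _ _) h7 h1 h26 (p132 h11)
  have h35 : t p33 p5 p4 = p10 := sdG (p321 h20) h29 h1 h0 h6
  have h36 : t c p12 p4 = p13 := sdG (p132 h1) (t121 _ _) h8 (p132 h0) h9
  have h37 : t p4 p12 p5 = a := sdG (p132 h0) (t121 _ _) (p132 h8) (p132 h1) (t211 _ _)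
  have h39 : t c p16 p4 = p17 := sdG (p231 h1) (t121 _ _) h12 (p231 h0) h13
  have h40 : t b c p35 = p20 := sdD (p213 h31) (t211 _ _) (p231 h0) h14 h16
  have h41 : t b p4 p31 = p26 := sdE (p231 h27) (t121 _ _) h16 (p231 h1) (p132 h22)
  have h42 : t p4 p16 p5 = b := sdG (p231 h0) (t121 _ _) (p132 h12) (p231 h1) (t211 _ _)
  have h44 : t p4 p16 p12 = c := sdG (p321 h0) (t121 _ _) (p231 h12) (p231 h8) (t211 _ _)
  have h46 : t p5 p17 p13 = p22 := sdG (p321 h0) (t121 _ _) (p231 h13) (p231 h9) (p132 h18)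
  have h47 : t p22 p17 p13 = c := sdG (p321 h1) (p132 h18) (p231 h13) (p231 h9) (t211 _ _)
  have h50 : t p5 p28 c = p29 := sdA (t121 _ _) h24 (p231 h2) h25 (p231 h3)
  have h51 : t p26 p21 p15 = p7 := sdG (p321 h1) (p231 h22) (p231 h17) (p231 h11) (t121 _ _)
  have h53 : t p4 p32 p5 = p14 := sdG (p132 h7) (t121 _ _) (p132 h32) (p132 h1) h10
  have h54 : t p4 p30 p5 = p19 := sdG (p231 h7) (t121 _ _) (p132 h33) (p231 h1) h15
  have h55 : t c p17 p13 = p4 := sdG h44 (t211 _ _) (p132 h39) (p132 h36) (t121 _ _)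
  have h57 : t c p13 p22 = p12 := sdG h37 (t211 _ _) (p132 h36) h18 (p231 h8)
  have h58 : t p16 p12 p5 = p4 := sdA (p132 h39) (p132 h36) h18 (t211 _ _) (p231 h47)
  have h59 : t p5 b a = p22 := sdG h44 (t121 _ _) (p132 h42) (p132 h37) (p231 h18)
  have h60 : t p16 p12 p27 = p33 := sdA (p132 h42) (p132 h37) h23 (p321 h35) (p213 h6)
  have h61 : t p22 p34 p5 = p10 := sdG (p231 h23) (p321 h59) h30 h1 h6
  have h62 : t p9 p4 c = p5 := sdA h5 h1 h0 (p321 h59) (p132 h18)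
  have h64 : t c p13 p5 = a := sdD (p321 h46) (t211 _ _) (p132 h55) h57 (p231 h8)
  have h66 : t p5 p16 p27 = p30 := sdA (t211 _ _) (p132 h42) h23 (p132 h54) (p213 h15)
  have h67 : t p5 p12 p27 = p32 := sdA (t211 _ _) (p132 h37) h23 (p132 h53) (p213 h10)
  have h69 : t p12 p16 a = p17 := sdE (p231 h37) (t121 _ _) (p213 h58) (p321 h44) (p231 h39)
  have h70 : t p12 p16 b = p13 := sdE (p231 h42) (t211 _ _) (p213 h58) (p321 h44) (p231 h36)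
  have e0 : p6 = p13 := canc (p213 h2) (p312 h64)
  subst e0
  have h74 : t p9 p16 p12 = p5 := sdA (p321 h62) (p132 h39) (p132 h36) h18 h46
  have h75 : t p5 p12 p33 = p14 := sdE (p231 h60) (t211 _ _) h67 (p321 h58) (p321 h53)
  have h76 : t p5 p16 p33 = p19 := sdE (p132 h60) (t211 _ _) h66 (p312 h58) (p321 h54)
  have h77 : t a p4 p18 = p33 := sdD (p213 h14) (p132 h8) (p132 h1) h10 (p213 h75)
  have h80 : t a c p20 = p33 := sdE (p231 h40) (t211 _ _) h31 (p132 h0) (p132 h77)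
  have h82 : t a b p33 = p26 := sdE (p132 h80) (t121 _ _) h27 h0 (p132 h41)
  have h83 : t p32 p33 p30 = p11 := sdA h28 h82 h26 h7 (p213 h51)
  have h85 : t p11 p4 c = p33 := sdA h7 h1 h0 h82 (p321 h22)
  have h86 : t p33 p16 p12 = p23 := sdG (p321 h7) (p321 h85) (p231 h12) (p231 h8) h19
  have h87 : t p4 p5 p11 = p34 := sdD (p231 h85) (t121 _ _) (p231 h18) (p321 h35) (p312 h61)
  have h88 : t p19 p14 p10 = p34 := sdG (p312 h83) (p132 h54) (p132 h53) (p321 h35) h87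
  have h90 : t p5 p33 c = p34 := sdE (p231 h44) (p132 h76) (p132 h75) (p213 h35) h88
  have h91 : t p24 p9 p4 = p27 := sdA h29 h5 h1 h30 (p231 h90)
  have h92 : t c p4 p27 = p25 := sdE (p321 h91) (t211 _ _) (p321 h62) h20 h21
  have h93 : t c p22 p25 = p23 := sdG h23 (t211 _ _) h18 h92 h19
  have h94 : t c p5 p26 = p23 := sdE (p231 h22) (t211 _ _) h21 (p132 h18) (p132 h93)
  have h96 : t p34 p17 p6 = p23 := sdG (p321 h82) (p312 h90) (p231 h13) (p231 h9) h94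
  have h97 : t p12 p16 p24 = p34 := sdD h29 h69 h70 (p321 h86) (p231 h96)
  have h99 : t p9 p27 p4 = p24 := sdA (p321 h74) (p213 h60) (p321 h44) h97 h90
  have h100 : t c p5 p25 = p7 := sdG (p312 h99) (t211 _ _) (p321 h62) h92 h20
  have h105 : t c p28 a = p25 := sdA (t121 _ _) (p312 h50) (p231 h9) h100 (p132 h25)
  have h108 : t c p5 p29 = p28 := sdD h25 (t211 _ _) h2 h21 (p132 h105)
  have h109 : t p6 p7 a = w := sdG (p231 h108) (t121 _ _) h25 (p231 h2) h24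
  exact func (p231 h4) h109

end Heap

end Pool.Agent.MP_20a840_al.H92
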