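import Pool.Agent.MP_20a840_al.H92.Sym2

namespace Pool.Agent.MP_20a840_al.H92

namespace Heap

open Equiv

universe u

variable {Ω : Type u} [Heap Ω]

/-- The group generated by products of two point inversions. -/
def K (Ω : Type u) [Heap Ω] : Subgroup (Perm Ω) := Subgroup.closure {g | ∃ a b, g = s a * s b}

theorem ss_mem_K (a b : Ω) : s a * s b ∈ K Ω := Subgroup.subset_closure ⟨a, b, rfl⟩

theorem K_le_Aut : K Ω ≤ Aut Ω := by
  rw [K, Subgroup.closure_le]
  rintro _ ⟨a, b, rfl⟩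
  exact (isAnti_s a).mul (isAnti_s b)

theorem K_conj {g g' : Perm Ω} (hg : g ∈ QAut Ω) (hg' : g' ∈ QAut Ω)
    (h : ∀ z, s (g z) = s (g' z)) {k : Perm Ω} (hk : k ∈ K Ω) :
    g * k * g⁻¹ ∈ K Ω ∧ g * k * g⁻¹ = g' * k * g'⁻¹ := by
  induction hk using Subgroup.closure_induction with
  | mem f hf =>
    obtain ⟨a, b, rfl⟩ := hf
    have e : ∀ g ∈ QAut Ω, g * (s a * s b) * g⁻¹ = s (g a) * s (g b) := by
      intro g hg
      rw [← QAut_conj hg, ← QAut_conj hg]
      group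
    rw [e g hg, e g' hg', h a, h b]
    exact ⟨ss_mem_K _ _, rfl⟩
  | one => simp
  | mul f f' _ _ hf hf' =>
    have e : ∀ g : Perm Ω, g * (f * f') * g⁻¹ = (g * f * g⁻¹) * (g * f' * g⁻¹) := by
      intro g
      group
    rw [e g, e g']
    exact ⟨(K Ω).mul_mem hf.1 hf'.1, by rw [hf.2, hf'.2]⟩
  | inv f _ hf =>
    have e : ∀ g : Perm Ω, g * f⁻¹ * g⁻¹ = (g * f * g⁻¹)⁻¹ := by
      intro g
      group
    rw [e g, e g']
    exact ⟨(K Ω).inv_mem hf.1, by rw [hf.2]⟩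

theorem exists_s_eq [Finite Ω] {k : ℕ} (hk : Nat.card Ω = 2 ^ k) {a b : Ω} (hab : b ≠ a) :
    ∃ c, c ≠ a ∧ s a = s c := by
  have h1 : ∃ x y : Ω, x ≠ y ∧ s x = s y := by
    by_contra hcon
    push Not at hcon
    have hz : IsPGroup 2 (Subgroup.zpowers (s a)) :=
      isPGroup_zpowers ⟨1, by rw [pow_one, pow_two, s_mul_s]⟩
    obtain ⟨S, haS, hS⟩ := exists_maximal_pgroup (Subgroup.zpowers_le.mpr (s_mem_QAut a)) hz
    have hsS : ∀ x, s x ∈ S := by
      intro x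
      obtain ⟨g, hg, rfl⟩ := maximal_pgroup_transitive hk QAut_trans hS a x
      rw [← QAut_conj (hS.prop.1 hg)]
      exact S.mul_mem (S.mul_mem hg (haS (Subgroup.mem_zpowers _))) (S.inv_mem hg)
    have : Nontrivial S := ⟨⟨⟨s b, hsS b⟩, ⟨s a, hsS a⟩, fun e =>
      hcon b a hab (congrArg Subtype.val e)⟩⟩
    have := hS.prop.2.center_nontrivial
    obtain ⟨u, hu⟩ := exists_ne (1 : Subgroup.center S)
    apply hu
    ext x
    by_contra hx
    apply hcon _ _ hx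
    rw [← QAut_conj (hS.prop.1 u.1.2)]
    have := congrArg Subtype.val (Subgroup.mem_center_iff.mp u.2 ⟨s x, hsS x⟩)
    change s x * u.1.1 = u.1.1 * s x at this
    rw [← this]
    simp
  obtain ⟨x, y, hxy, h⟩ := h1
  refine ⟨lam x a y, fun e => hxy ?_, ?_⟩
  · exact cancL (t121 x a) e
  · rw [← QAut_conj (isAut_lam x a).mem_QAut, ← h, QAut_conj (isAut_lam x a).mem_QAut,
      lam_apply, t121]

theorem isCong_s : IsCong (fun x y : Ω => s x = s y) := by
  refine IsCong.of_aut ⟨fun _ => rfl, fun h => h.symm, fun h h' => h.trans h'⟩ ?_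
  intro g hg x y h
  rw [← QAut_conj hg.mem_QAut, ← QAut_conj hg.mem_QAut, h]

/-- Pairs in the same diagonal `K`-orbit. -/
def rel (x x' y y' : Ω) : Prop := ∃ k ∈ K Ω, k x = y ∧ k x' = y'

theorem rel_map' {g g' : Perm Ω} (hg : g ∈ QAut Ω) (hg' : g' ∈ QAut Ω)
    (h : ∀ z, s (g z) = s (g' z)) {x x' y y' : Ω} (hr : rel x x' y y') :
    rel (g x) (g' x') (g y) (g' y') := by
  obtain ⟨k, hk, rfl, rfl⟩ := hr
  obtain ⟨h1, h2⟩ := K_conj hg hg' h hk
  refine ⟨_, h1, by simp, ?_⟩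
  rw [h2]
  simp

theorem rel_map {g g' : Perm Ω} (hg : g ∈ QAut Ω) (hg' : g' ∈ QAut Ω)
    (h : ∀ z, s (g z) = s (g' z)) {x x' y y' : Ω} :
    rel (g x) (g' x') (g y) (g' y') ↔ rel x x' y y' := by
  refine ⟨fun hr => ?_, rel_map' hg hg' h⟩
  have := rel_map' ((QAut Ω).inv_mem hg) ((QAut Ω).inv_mem hg') (fun z => ?_) hr
  · simpa using this
  · have h1 := h (g'⁻¹ z)
    have h0 : g' (g'⁻¹ z) = z := by simp
    rw [h0, ← QAut_conj hg] at h1
    rw [← QAut_conj ((QAut Ω).inv_mem hg), ← h1]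
    group

theorem rel_unique {z y y' : Ω} (hy : s z = s y) (h : rel z y z y') : y = y' := by
  have h1 := rel_map' (QAut Ω).one_mem (isAut_lam y z).mem_QAut (fun w => ?_) h
  · obtain ⟨k, _, h2, h3⟩ := h1
    simp only [Perm.one_apply, lam_apply, t121] at h2 h3
    exact cancL (t121 y z) (h3.symm.trans h2)
  · have := isCong_s.t_congr (rfl : s y = s y) hy.symm (rfl : s w = s w)
    rwa [t112] at this

/-- The case of order a power of two. -/
theorem exists_Nmu_two [Finite Ω] {k : ℕ} (hk : Nat.card Ω = 2 ^ k) {a b : Ω} (hab : b ≠ a) :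
    ∃ c, c ≠ a ∧ Nmu a c := by
  obtain ⟨c0, hc0, hc0'⟩ := exists_s_eq hk hab
  have hs : IsCong (fun x y : Ω => s x = s y) := isCong_s
  let D := {p : Ω × Ω // s p.1 = s p.2}
  let _ : Heap D := hs.pairs
  have htD : ∀ u v w : D, (t u v w).1 = (t u.1.1 v.1.1 w.1.1, t u.1.2 v.1.2 w.1.2) :=
    fun _ _ _ => rfl
  have hr : IsCong (fun p q : D => rel p.1.1 p.1.2 q.1.1 q.1.2) := by
    refine ⟨⟨fun p => ⟨1, (K Ω).one_mem, rfl, rfl⟩, ?_, ?_⟩, ?_, ?_⟩
    · rintro p q ⟨k, hk, h1, h2⟩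
      exact ⟨k⁻¹, (K Ω).inv_mem hk, by rw [← h1]; simp, by rw [← h2]; simp⟩
    · rintro p q r ⟨k, hk, h1, h2⟩ ⟨k', hk', h1', h2'⟩
      exact ⟨k' * k, (K Ω).mul_mem hk' hk, by rw [Perm.mul_apply, h1, h1'],
        by rw [Perm.mul_apply, h2, h2']⟩
    · intro u v x y
      simp only [htD]
      exact rel_map (isAut_lam u.1.1 v.1.1).mem_QAut (isAut_lam u.1.2 v.1.2).mem_QAut
        (fun z => hs.t_congr u.2 v.2 rfl)
    · intro u v x y
      simp only [htD]
      exact rel_map (isAut_rho u.1.1 v.1.1).mem_QAut (isAut_rho u.1.2 v.1.2).mem_QAut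
        (fun z => hs.t_congr u.2 rfl v.2)
  let _ : Heap (Quotient hr.setoid) := hr.heap
  have ht : ∀ u v w : D, t (Quotient.mk hr.setoid u) (Quotient.mk _ v) (Quotient.mk _ w)
      = Quotient.mk _ (t u v w) := fun _ _ _ => rfl
  have : IsSym (Quotient hr.setoid) := ⟨fun u v => by
    induction u using Quotient.inductionOn with | _ u
    induction v using Quotient.inductionOn with | _ v
    rw [ht]
    apply Quotient.sound
    refine ⟨s u.1.1 * s v.1.1, ss_mem_K _ _, ?_, ?_⟩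
    · simp only [htD, Perm.mul_apply]
      rw [← s_eq_sq, s_s, s_self]
    · simp only [htD, Perm.mul_apply]
      rw [← s_eq_sq, ← v.2, s_s, u.2, s_self]⟩
  let o : D := ⟨(a, a), rfl⟩
  have key : ∀ (x y : D) (c : Ω) (hc : s a = s c),
      t (Quotient.mk hr.setoid o) (Quotient.mk _ y)
        (t (Quotient.mk _ o) (Quotient.mk _ x) (Quotient.mk _ ⟨(a, c), hc⟩))
      = Quotient.mk _ (t o (t o x ⟨(a, c), hc⟩) y) := by
    intro x y c hc
    rw [comm23, ht, ht]
  obtain ⟨_, ⟨c, hc, rfl⟩, hca, hcN⟩ := exists_Nmu_mem _ (Quotient hr.setoid) rfl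
    (Quotient.mk _ o) {d | ∃ c, ∃ hc : s a = s c, d = Quotient.mk hr.setoid ⟨(a, c), hc⟩}
    (by
      rintro _ ⟨c1, h1, rfl⟩ _ ⟨c2, h2, rfl⟩ z hz
      obtain ⟨c3, hc3⟩ := surjL c1 c2 a
      have h3 : s a = s c3 := hs.cancL h1 h2 (by rw [hc3, t112])
      refine ⟨c3, h3, cancL hz ?_⟩
      rw [ht]
      congr 1
      apply Subtype.ext
      rw [htD, hc3, t112])
    (by
      rintro x y _ ⟨c, hc, rfl⟩ c' hc'
      induction x using Quotient.inductionOn with | _ x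
      induction y using Quotient.inductionOn with | _ y
      obtain ⟨q, hq⟩ := surjR a y.1.2 (t a x.1.2 (t a y.1.2 c))
      obtain ⟨c1, rfl⟩ := surjL a x.1.2 q
      have h1 : s a = s c1 := by
        have e1 : s (t a x.1.2 (t a y.1.2 a)) = s (t a x.1.2 (t a y.1.2 c)) :=
          hs.t_congr rfl rfl (hs.t_congr rfl rfl hc)
        rw [← hq, t121] at e1
        have e2 : s x.1.2 = s (t a x.1.2 c1) := hs.cancR rfl rfl e1
        nth_rewrite 1 [← t121 a x.1.2] at e2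
        exact hs.cancL rfl rfl e2
      refine ⟨c1, h1, ?_⟩
      have e : t (Quotient.mk hr.setoid o) (Quotient.mk _ y)
          (t (Quotient.mk _ o) (Quotient.mk _ x) (Quotient.mk _ ⟨(a, c1), h1⟩))
          = t (Quotient.mk hr.setoid o) (Quotient.mk _ x)
          (t (Quotient.mk _ o) (Quotient.mk _ y) (Quotient.mk _ ⟨(a, c), hc⟩)) := by
        rw [key, ht, ht]
        congr 1
        apply Subtype.ext
        simp only [htD, o, t121, hq]
      exact cancL (cancL (hc'.symm.trans e.symm) rfl) rfl)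
    ⟨_, ⟨c0, hc0', rfl⟩, fun e => hc0 (rel_unique hc0' (Quotient.exact e))⟩
  refine ⟨c, fun e => hca (by subst e; rfl), fun x y => ?_⟩
  have h := hcN (Quotient.mk _ ⟨(x, x), rfl⟩) (Quotient.mk _ ⟨(y, y), rfl⟩)
  rw [ht, ht, ht, ht] at h
  have h' := Quotient.exact h
  change rel _ _ _ _ at h'
  simp only [htD, o, t121, t112] at h'
  refine rel_unique ?_ h'
  have := hs.t_congr (rfl : s a = s a) (hs.t_congr (rfl : s a = s a) (rfl : s x = s x) hc)
    (rfl : s y = s y)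
  rwa [t121] at this

end Heap

end Pool.Agent.MP_20a840_al.H92
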